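import Pool.Agent.OW.Defs

/-!
# OW-Alg: the identities of the model
-/

namespace Pool.Agent.OW

variable {G V A : Type*} [Group G] [AddCommGroup V] [DistribMulAction G V] [AddCommGroup A]
  {β : V →+ V →+ A} {y y' : V →+ V}

lemma Mdl.b2 (M : Mdl G β y y') (u v : V) : β u v + β u v = 0 := by
  rw [← AddMonoidHom.map_add, M.two, map_zero]

lemma Mdl.neg (M : Mdl G β y y') (v : V) : -v = v := neg_eq_of_add_eq_zero_left (M.two v)

theorem R1 (M : Mdl G β y y') {a : V} (ha : Gd y y' a) (b : V) :
    β (y a) b + β (y b) a = β a b := by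
  have h1 : β (y b) a = β (y' a) b := by rw [M.adj b a, M.sym b (y' a)]
  rw [h1, ← AddMonoidHom.add_apply, ← map_add]
  have h2 : y a + y' a = a := ha
  rw [h2]

theorem herm (M : Mdl G β y y') (τ τ' : V →+ V) (hadj : ∀ u v, β (τ u) v = β u (τ' v))
    (hc' : ∀ v, τ' (y v) = y (τ' v)) {u : V} (hu : Gd y y' u) (hτ : τ u = τ' u) :
    β (τ u) u = 0 := by
  have h0 : y u + y' u = u := hu
  have h1 : β (τ u) (y' u) = β (y (τ u)) u := (M.adj (τ u) u).symm
  have h2 : β (τ u) (y u) = β (y (τ u)) u := by
    rw [hadj u (y u), hc' u, ← hτ, M.sym u (y (τ u))]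
  have h3 : β (τ u) u = β (τ u) (y u) + β (τ u) (y' u) := by
    rw [← map_add, h0]
  rw [h3, h1, h2, M.b2]

/-- The conjugate `v ↦ k⁻¹ f (k v)` of an operator. -/
private def owCj (k : G) (f : V →+ V) : V →+ V :=
  (DistribSMul.toAddMonoidHom V k⁻¹).comp (f.comp (DistribSMul.toAddMonoidHom V k))

private lemma owCj_apply (k : G) (f : V →+ V) (v : V) : owCj k f v = k⁻¹ • f (k • v) := rfl

theorem R2 (M : Mdl G β y y') (g h : G) {u : V} (hu : Gd y y' u) (hhu : Gd y y' (h • u))
    (hghu : Gd y y' ((g * h) • u)) :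
    rho β y' (g * h) u = rho β y' g (h • u) + rho β y' h u := by
  have hgd : ∀ (k : G) (w : V), Gd y y' (k • w) → owCj k y' w = w + owCj k y w := by
    intro k w hk
    have h0 : y (k • w) + y' (k • w) = k • w := hk
    have h1 : y' (k • w) = k • w + y (k • w) := by
      have h2 : y' (k • w) = y (k • w) + (y (k • w) + y' (k • w)) := by
        rw [← add_assoc, M.two, zero_add]
      rw [h2, h0, add_comm]
    rw [owCj_apply, owCj_apply, h1, smul_add, inv_smul_smul]
  have hadj1 : ∀ (k : G) (v w : V), β (owCj k y v) w = β v (owCj k y' w) := by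
    intro k v w
    rw [owCj_apply, owCj_apply]
    have h1 : β (k⁻¹ • y (k • v)) w = β (y (k • v)) (k • w) := by
      rw [← M.inv k (k⁻¹ • y (k • v)) w, smul_inv_smul]
    have h2 : β v (k⁻¹ • y' (k • w)) = β (k • v) (y' (k • w)) := by
      rw [← M.inv k v (k⁻¹ • y' (k • w)), smul_inv_smul]
    rw [h1, h2, M.adj]
  have hadj2 : ∀ (k : G) (v w : V), β (owCj k y' v) w = β v (owCj k y w) := by
    intro k v w
    rw [M.sym, ← hadj1, M.sym]
  -- commutation with `y`
  have hcy : ∀ (k : G) (v : V), y (owCj k y v) = owCj k y (y v) := by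
    intro k v
    have := M.c1 k⁻¹ v
    rw [inv_inv] at this
    rw [owCj_apply, owCj_apply]
    exact this
  have hcy' : ∀ (k : G) (v : V), y (owCj k y' v) = owCj k y' (y v) := by
    intro k v
    have := M.c2 k⁻¹ v
    rw [inv_inv] at this
    rw [owCj_apply, owCj_apply]
    exact this
  have ha' : ∀ v : V, y (y' v) = y' (y v) := by
    intro v
    have := hcy' 1 v
    simpa [owCj_apply] using this
  have hbc : owCj h y (owCj (g * h) y u) = owCj (g * h) y (owCj h y u) := by
    have h1 := hcy g (h • u)
    rw [owCj_apply, owCj_apply] at h1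
    simp only [owCj_apply]
    rw [mul_inv_rev, mul_smul, mul_smul, mul_smul, mul_smul, smul_inv_smul, smul_inv_smul, h1]
  have hτ := herm M (y.comp (owCj (g * h) y') + (owCj h y).comp (owCj (g * h) y')
      + y.comp (owCj h y'))
    ((owCj (g * h) y).comp y' + (owCj (g * h) y).comp (owCj h y') + (owCj h y).comp y')
    (by
      intro v w
      simp only [AddMonoidHom.add_apply, AddMonoidHom.comp_apply, map_add]
      rw [M.adj, hadj2, hadj1, hadj2, M.adj, hadj2])
    (by
      intro v
      simp only [AddMonoidHom.add_apply, AddMonoidHom.comp_apply, map_add]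
      rw [← ha', hcy, hcy, hcy, ← hcy'])
    hu
    (by
      simp only [AddMonoidHom.add_apply, AddMonoidHom.comp_apply]
      have h1 := hgd (g * h) u hghu
      have h2 := hgd h u hhu
      have h3 : y' u = u + y u := by
        have h0 : y u + y' u = u := hu
        have h2 : y' u = y u + (y u + y' u) := by
          rw [← add_assoc, M.two, zero_add]
        rw [h2, h0, add_comm]
      rw [h1, h2, h3]
      simp only [map_add]
      rw [hcy, hcy, hbc]
      have e1 := M.two (y u)
      have e2 := M.two (owCj (g * h) y u)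
      have e3 : ∀ p q r s t w : V, t + t = 0 → w + w = 0 →
          t + p + (q + r) + (t + s) = w + p + (w + r) + (q + s) := by
        intro p q r s t w ht hw
        have h4 : t + p + (q + r) + (t + s) = (t + t) + (p + (q + r) + s) := by abel
        have h5 : w + p + (w + r) + (q + s) = (w + w) + (p + (q + r) + s) := by abel
        rw [h4, h5, ht, hw]
      exact e3 _ _ _ _ _ _ e1 e2)
  simp only [AddMonoidHom.add_apply, AddMonoidHom.comp_apply, map_add] at hτ
  rw [M.adj, hadj1, M.adj] at hτ
  have r1 : rho β y' (g * h) u = β (owCj (g * h) y' u) (y' u) := by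
    unfold rho
    rw [owCj_apply, ← M.inv (g * h) ((g * h)⁻¹ • y' ((g * h) • u)) (y' u), smul_inv_smul]
  have r2 : rho β y' h u = β (owCj h y' u) (y' u) := by
    unfold rho
    rw [owCj_apply, ← M.inv h (h⁻¹ • y' (h • u)) (y' u), smul_inv_smul]
  have r3 : rho β y' g (h • u) = β (owCj (g * h) y' u) (owCj h y' u) := by
    unfold rho
    rw [owCj_apply, owCj_apply,
      ← M.inv (g * h) ((g * h)⁻¹ • y' ((g * h) • u)) (h⁻¹ • y' (h • u)), smul_inv_smul,
      mul_smul, mul_smul, smul_inv_smul]
  rw [r1, r2, r3]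
  have e4 : ∀ p q r : A, p + q + r = 0 → p + p = 0 → p = q + r := by
    intro p q r h1 h2
    have h3 : p + (q + r) = p + p := by rw [h2, ← add_assoc, h1]
    exact (add_left_cancel h3).symm
  exact e4 _ _ _ hτ (M.b2 _ _)

theorem R3 (M : Mdl G β y y') (g : G) {u : V} (hu : Gd y y' u) (hgu : Gd y y' (g • u)) (v : V) :
    rho β y' g (u + v) =
      rho β y' g u + rho β y' g v + β (y (g • u)) (g • v) + β (y u) v := by
  have hcr : β (y' (g • u)) (g • y' v) + β (y' (g • v)) (g • y' u)
      = β (y (g • u)) (g • v) + β (y u) v := by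
    have a1 : β (y' (g • u)) (g • y' v) = β (y (owCj g y' u)) v := by
      rw [M.adj, owCj_apply, ← M.inv g (g⁻¹ • y' (g • u)) (y' v), smul_inv_smul]
    have a2 : β (y' (g • v)) (g • y' u) = β (owCj g y (y' u)) v := by
      rw [owCj_apply, ← M.inv g (g⁻¹ • y (g • y' u)) v, smul_inv_smul, M.adj, M.sym]
    have a3 : β (y (g • u)) (g • v) = β (owCj g y u) v := by
      rw [owCj_apply, ← M.inv g (g⁻¹ • y (g • u)) v, smul_inv_smul]
    have hgd : ∀ w : V, Gd y y' w → y' w = w + y w := by
      intro w hw
      have h0 : y w + y' w = w := hw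
      have h2 : y' w = y w + (y w + y' w) := by
        rw [← add_assoc, M.two, zero_add]
      rw [h2, h0, add_comm]
    have h1 : owCj g y' u = u + owCj g y u := by
      rw [owCj_apply, owCj_apply, hgd _ hgu, smul_add, inv_smul_smul]
    have hcy : y (owCj g y u) = owCj g y (y u) := by
      have := M.c1 g⁻¹ u
      rw [inv_inv] at this
      rw [owCj_apply, owCj_apply]
      exact this
    rw [a1, a2, a3, h1, hgd u hu, map_add y, map_add (owCj g y), hcy, map_add β, map_add β,
      AddMonoidHom.add_apply, AddMonoidHom.add_apply]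
    have e := M.b2 (owCj g y (y u)) v
    have e5 : ∀ p q r : A, q + q = 0 → p + q + (r + q) = r + p := by
      intro p q r h
      have h3 : p + q + (r + q) = (r + p) + (q + q) := by abel
      rw [h3, h, add_zero]
    exact e5 _ _ _ e
  unfold rho
  simp only [smul_add, map_add, AddMonoidHom.add_apply]
  have e6 : ∀ p q r s t w : A, q + r = t + w → p + q + (r + s) = p + s + t + w := by
    intro p q r s t w h
    have h3 : p + q + (r + s) = p + s + (q + r) := by abel
    rw [h3, h]
    abel
  first
    | exact e6 _ _ _ _ _ _ hcr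
    | (rw [add_assoc (_ + _), ← hcr]; abel)

theorem R4 (M : Mdl G β y y') (g : G) {u : V} (hu : Gd y y' u) (hgu : Gd y y' (g • u)) :
    β (y (g • u)) (g • u) = β (y u) u := by
  have h := R3 M g hu hgu u
  have h0 : rho β y' g (u + u) = 0 := by
    unfold rho
    rw [M.two, smul_zero, map_zero, map_zero, AddMonoidHom.zero_apply]
  have h1 : rho β y' g u + rho β y' g u = 0 := by
    unfold rho
    exact M.b2 _ _
  rw [h0, h1, zero_add] at h
  have h2 : β (y (g • u)) (g • u) + β (y u) u = β (y u) u + β (y u) u := by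
    rw [← h, M.b2]
  exact add_right_cancel h2

end Pool.Agent.OW
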