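import Pool.Agent.OW.Layer
import Pool.Agent.Helper33.CW2.Core

/-!
# OW-Chain: a chain of layers
-/

open scoped commutatorElement

namespace Pool.Agent.OW

open Pool.Agent.Helper26.CW Pool.Agent.Helper33.CW2

universe u

private lemma ch_sq {G : Type u} [Group G] {b m : G} (h : ⁅b, m⁆ ∈ Subgroup.center G)
    (h2 : ⁅b, m⁆ ^ 2 = 1) : m * b ^ 2 = b ^ 2 * m := by
  obtain ⟨c, hc⟩ : ∃ c : G, c = ⁅b, m⁆ := ⟨_, rfl⟩
  rw [← hc] at h h2
  have h3 : b * m = c * (m * b) := by
    rw [hc, commutatorElement_def]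
    group
  have h4 : b * c = c * b := Subgroup.mem_center_iff.1 h b
  have h5 : b ^ 2 * m = c ^ 2 * (m * b ^ 2) := by
    calc b ^ 2 * m = b * (b * m) := by rw [pow_two, mul_assoc]
      _ = b * c * (m * b) := by rw [h3, mul_assoc]
      _ = c * (b * m) * b := by rw [h4]; group
      _ = c ^ 2 * (m * b ^ 2) := by rw [h3, pow_two, pow_two]; group
  rw [h5, h2, one_mul]

theorem chain {G : Type u} [Group G] {k : ℕ} (x : Fin k → G)
    (hx : Subgroup.closure (Set.range x) = ⊤) (N : Subgroup G) [hN : N.Normal]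
    (hc : ∀ r ∈ N, ∀ s ∈ N, ⁅r, s⁆ ∈ Subgroup.center G)
    (he : ∀ r ∈ N, ∀ s ∈ N, ⁅r, s⁆ ^ 2 = 1) (r : ℕ) (H : ℕ → Subgroup G)
    (hHn : ∀ j, (H j).Normal) (hd : ∀ j < r, ⁅H j, H j⁆ ≤ H (j + 1))
    (hst : ∀ j < r, ∀ h ∈ H j, ∀ n ∈ N, ∃ l : List G, Odd l.length ∧ (∀ a ∈ l, a ∈ H j) ∧
      (l.map fun a => a * ⁅h, n⁆ * a⁻¹).prod ∈ SQ N ⊔ ⁅N, H (j + 1)⁆)
    (hr : ⁅N, ⁅N, H r⁆⁆ = ⊥) {z : G} (hz : z ∈ ⁅N, ⁅N, H 0⁆⁆) : IsProdComm (r * (3 * k)) z := by
  have key : ∀ s j : ℕ, j + s = r → ∀ z ∈ ⁅N, ⁅N, H j⁆⁆, IsProdComm (s * (3 * k)) z := by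
    intro s
    induction s with
    | zero =>
      intro j hj z hz
      rw [add_zero] at hj
      rw [hj, hr, Subgroup.mem_bot] at hz
      rw [hz]
      exact IsProdComm.one _
    | succ s ih =>
      intro j hj z hz
      have hjr : j < r := by omega
      have hn1 := hHn j
      have hn2 := hHn (j + 1)
      obtain ⟨Z, hZ⟩ : ∃ Z : Subgroup G, Z = ⁅N, ⁅N, H (j + 1)⁆⁆ := ⟨_, rfl⟩
      have hZ' : Z = ⁅⁅N, H (j + 1)⁆, N⁆ := by
        rw [hZ, Subgroup.commutator_comm]
      have hZn : Z.Normal := by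
        rw [hZ]
        infer_instance
      have hsur : Function.Surjective (QuotientGroup.mk' Z) := QuotientGroup.mk'_surjective Z
      have hone : ∀ y ∈ Z, QuotientGroup.mk' Z y = 1 := fun y hy =>
        (QuotientGroup.eq_one_iff y).2 hy
      have hx' : Subgroup.closure (Set.range fun i => QuotientGroup.mk' Z (x i)) = ⊤ := by
        have h1 : Set.range (fun i => QuotientGroup.mk' Z (x i)) =
            QuotientGroup.mk' Z '' Set.range x := by
          rw [← Set.range_comp]; rfl
        rw [h1, ← MonoidHom.map_closure, hx, Subgroup.map_top_of_surjective _ hsur]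
      have hNm : (N.map (QuotientGroup.mk' Z)).Normal := Subgroup.Normal.map hN _ hsur
      have hHm : ((H j).map (QuotientGroup.mk' Z)).Normal := Subgroup.Normal.map hn1 _ hsur
      have hcom : ∀ p ∈ SQ N ⊔ ⁅N, H (j + 1)⁆, ∀ m ∈ N,
          ⁅QuotientGroup.mk' Z p, QuotientGroup.mk' Z m⁆ = 1 := by
        intro p hp m hm
        have h1 : SQ N ⊔ ⁅N, H (j + 1)⁆ ≤ (Subgroup.centralizer
            ((N.map (QuotientGroup.mk' Z) : Subgroup (G ⧸ Z)) : Set (G ⧸ Z))).comap
              (QuotientGroup.mk' Z) := by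
          refine sup_le ?_ ?_
          · unfold SQ
            rw [Subgroup.closure_le]
            rintro _ ⟨b, hb, rfl⟩
            rw [SetLike.mem_coe, Subgroup.mem_comap, Subgroup.mem_centralizer_iff]
            rintro _ ⟨m', hm', rfl⟩
            rw [← map_mul, ← map_mul, ch_sq (hc b hb m' hm') (he b hb m' hm')]
          · intro y hy
            rw [Subgroup.mem_comap, Subgroup.mem_centralizer_iff]
            rintro _ ⟨m', hm', rfl⟩
            have h2 : ⁅y, m'⁆ ∈ Z := by
              rw [hZ']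
              exact Subgroup.commutator_mem_commutator hy hm'
            have h3 := hone _ h2
            rw [map_commutatorElement, commutatorElement_eq_one_iff_mul_comm] at h3
            exact h3.symm
        have h2 := h1 hp
        rw [Subgroup.mem_comap, Subgroup.mem_centralizer_iff] at h2
        rw [commutatorElement_eq_one_iff_mul_comm]
        exact (h2 _ ⟨m, hm, rfl⟩).symm
      have h1 : IsProdComm (3 * k) (QuotientGroup.mk' Z z) := by
        refine layer (fun i => QuotientGroup.mk' Z (x i)) hx' (N.map (QuotientGroup.mk' Z)) ?_ ?_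
          ((H j).map (QuotientGroup.mk' Z)) hHm ?_ ?_ ?_
        · rintro _ ⟨a, ha, rfl⟩ _ ⟨b, hb, rfl⟩
          rw [← map_commutatorElement, Subgroup.mem_center_iff]
          intro g
          obtain ⟨g, rfl⟩ := hsur g
          rw [← map_mul, ← map_mul, Subgroup.mem_center_iff.1 (hc a ha b hb) g]
        · rintro _ ⟨a, ha, rfl⟩ _ ⟨b, hb, rfl⟩
          rw [← map_commutatorElement, ← map_pow, he a ha b hb, map_one]
        · rintro _ ⟨a, ha, rfl⟩ _ ⟨b, hb, rfl⟩ _ ⟨n, hn, rfl⟩ _ ⟨m, hm, rfl⟩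
          rw [← map_commutatorElement, ← map_commutatorElement, ← map_commutatorElement]
          apply hone
          rw [hZ', Subgroup.commutator_comm N (H (j + 1))]
          exact Subgroup.commutator_mem_commutator (Subgroup.commutator_mem_commutator
            (hd j hjr (Subgroup.commutator_mem_commutator ha hb)) hn) hm
        · rintro _ ⟨h, hh, rfl⟩ _ ⟨n, hn, rfl⟩
          obtain ⟨l, hl1, hl2, hl3⟩ := hst j hjr h hh n hn
          refine ⟨l.map (QuotientGroup.mk' Z), ?_, ?_, ?_⟩
          · rw [List.length_map]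
            exact hl1
          · intro a ha
            obtain ⟨b, hb, rfl⟩ := List.mem_map.1 ha
            exact ⟨b, hl2 b hb, rfl⟩
          · rintro _ ⟨m, hm, rfl⟩
            have h4 : ((l.map (QuotientGroup.mk' Z)).map fun a =>
                a * ⁅QuotientGroup.mk' Z h, QuotientGroup.mk' Z n⁆ * a⁻¹).prod =
                QuotientGroup.mk' Z (l.map fun a => a * ⁅h, n⁆ * a⁻¹).prod := by
              rw [map_list_prod, List.map_map, List.map_map]
              rfl
            rw [h4]
            exact hcom _ hl3 m hm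
        · rw [← Subgroup.map_commutator, ← Subgroup.map_commutator]
          exact ⟨z, hz, rfl⟩
      obtain ⟨c, a, hc1, ha, hca⟩ := exists_of_quotient Z h1
      have h5 := hc1.mul (ih (j + 1) (by omega) a (by rw [← hZ]; exact ha))
      rw [hca, Nat.succ_mul, add_comm]
      exact h5
  exact key r 0 (zero_add r) z hz

end Pool.Agent.OW
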