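import Pool.Agent.OW.Alg

/-!
# OW-Coll: the collection process in the model
-/

namespace Pool.Agent.OW

open Pool.Agent.Helper33.CW2

variable {G V A : Type*} [Group G] [AddCommGroup V] [DistribMulAction G V] [AddCommGroup A]
  {β : V →+ V →+ A} {y y' : V →+ V} {k : ℕ} (x : Fin k → G)

private theorem dl_add (i : Fin k) (v w : V) : dl x (i, v + w) = dl x (i, v) + dl x (i, w) := by
  show x i • (v + w) - (v + w) = (x i • v - v) + (x i • w - w)
  rw [smul_add]
  abel

private theorem dl_zero (i : Fin k) : dl x (i, (0 : V)) = 0 := by
  show x i • (0 : V) - 0 = 0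
  rw [smul_zero, sub_zero]

/-- `dl` as an additive map -/
private def dlH (i : Fin k) : V →+ V :=
  { toFun := fun v => dl x (i, v)
    map_zero' := dl_zero x i
    map_add' := dl_add x i }

private theorem dlH_apply (i : Fin k) (v : V) : dlH (V := V) x i v = dl x (i, v) := rfl

private theorem col_nil (j : Fin k) : col ([] : List (Fin k × V)) j = 0 := rfl

private theorem col_cons (i : Fin k) (v : V) (P : List (Fin k × V)) (j : Fin k) :
    col ((i, v) :: P) j = (if i = j then v else 0) + col P j := rfl

/-- sums over the letters -/
private theorem sum_col {B : Type*} [AddCommGroup B] (h : Fin k → V →+ B)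
    (P : List (Fin k × V)) : (P.map fun q => h q.1 q.2).sum = ∑ j, h j (col P j) := by
  induction P with
  | nil =>
    rw [List.map_nil, List.sum_nil]
    refine (Finset.sum_eq_zero fun j _ => ?_).symm
    rw [col_nil, map_zero]
  | cons q P ih =>
    obtain ⟨i, v⟩ := q
    rw [List.map_cons, List.sum_cons, ih]
    have h1 : ∀ j, h j (col ((i, v) :: P) j) = (if i = j then h j v else 0) + h j (col P j) := by
      intro j
      rw [col_cons, map_add]
      by_cases hij : i = j
      · rw [if_pos hij, if_pos hij]
      · rw [if_neg hij, if_neg hij, map_zero]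
    rw [Finset.sum_congr rfl fun j _ => h1 j, Finset.sum_add_distrib, Finset.sum_ite_eq,
      if_pos (Finset.mem_univ i)]

/-- the cost of a letter, as a function of the second letter -/
private def hh (β : V →+ V →+ A) (i : Fin k) (v : V) (j : Fin k) : V →+ A :=
  if j < i then (β (dl x (i, v))).comp (dlH x j)
  else if j = i then (β v).comp (dlH x i) else 0

private theorem hh_apply (i : Fin k) (v : V) (j : Fin k) (w : V) :
    hh x β i v j w = kap x β (i, v) (j, w) := by
  unfold hh kap
  by_cases h1 : j < i
  · rw [if_pos h1, if_pos h1]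
    rfl
  · rw [if_neg h1, if_neg h1]
    by_cases h2 : j = i
    · rw [if_pos h2, if_pos h2, h2]
      rfl
    · rw [if_neg h2, if_neg h2]
      rfl

private theorem col_gd (P : List (Fin k × V)) (hP : AllGd x y y' P) (j : Fin k) :
    Gd y y' (col P j) ∧ Gd y y' (x j • col P j) := by
  induction P with
  | nil =>
    rw [col_nil, smul_zero]
    exact ⟨Gd.zero y y', Gd.zero y y'⟩
  | cons q P ih =>
    obtain ⟨i, v⟩ := q
    obtain ⟨h1, h2⟩ := ih fun p hp => hP p (List.mem_cons_of_mem _ hp)
    obtain ⟨h3, h4⟩ := hP (i, v) List.mem_cons_self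
    rw [col_cons]
    by_cases hij : i = j
    · rw [if_pos hij, smul_add]
      rw [hij] at h4
      exact ⟨h3.add h1, h4.add h2⟩
    · rw [if_neg hij, zero_add]
      exact ⟨h1, h2⟩

private theorem ccl_cons (p : Fin k × V) (P : List (Fin k × V)) :
    ccl x β y y' (p :: P) =
      yv x β y y' p + β (y (dl x p)) (P.map (dl x)).sum + ccl x β y y' P := rfl

theorem ccl_append (P Q : List (Fin k × V)) :
    ccl x β y y' (P ++ Q) =
      ccl x β y y' P + ccl x β y y' Q + β (y (P.map (dl x)).sum) (Q.map (dl x)).sum := by
  induction P with
  | nil =>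
    show ccl x β y y' Q = 0 + ccl x β y y' Q + β (y ([] : List V).sum) (Q.map (dl x)).sum
    rw [List.sum_nil, map_zero, map_zero, AddMonoidHom.zero_apply, zero_add, add_zero]
  | cons p P ih =>
    rw [List.cons_append, ccl_cons, ccl_cons, ih, List.map_append, List.sum_append, List.map_cons,
      List.sum_cons, map_add, map_add, map_add, AddMonoidHom.add_apply]
    abel

theorem yv_add (M : Mdl G β y y') (i : Fin k) {v v' : V} (hv : Gd y y' v)
    (hxv : Gd y y' (x i • v)) (hv' : Gd y y' v') (hxv' : Gd y y' (x i • v')) :
    yv x β y y' (i, v + v') = yv x β y y' (i, v) + yv x β y y' (i, v') +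
      β v (dl x (i, v')) + β (y (dl x (i, v))) (dl x (i, v')) := by
  have hd : ∀ w : V, dl x (i, w) = x i • w + w := by
    intro w
    show x i • w - w = x i • w + w
    rw [sub_eq_add_neg, M.neg]
  have h1 := R1 M hv (x i • v')
  have h2 := R1 M hv v'
  have h3 := M.b2 (y v) (x i • v')
  have h4 : yv x β y y' (i, v + v') = β (y (dl x (i, v + v'))) (v + v') +
      rho β y' (x i) (v + v') := rfl
  have h5 : yv x β y y' (i, v) = β (y (dl x (i, v))) v + rho β y' (x i) v := rfl
  have h6 : yv x β y y' (i, v') = β (y (dl x (i, v'))) v' + rho β y' (x i) v' := rfl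
  rw [h4, h5, h6, R3 M (x i) hv hxv v', hd, hd, hd]
  simp only [smul_add, map_add, AddMonoidHom.add_apply]
  rw [← h1, ← h2, ← add_zero (β (y (x i • v)) v + _ + _ + _), ← h3]
  abel

theorem coll (M : Mdl G β y y') (P : List (Fin k × V)) (hP : AllGd x y y' P) :
    ccl x β y y' P + kp x β P =
      ∑ i, yv x β y y' (i, col P i) +
      ∑ j, ∑ i, (if i < j then β (y (dl x (i, col P i))) (dl x (j, col P j)) else 0) := by
  classical
  induction P with
  | nil =>
    have h1 : ∀ i, yv x β y y' (i, col ([] : List (Fin k × V)) i) = 0 := by
      intro i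
      show β (y (x i • (0 : V) - 0)) 0 + β (y' (x i • (0 : V))) (x i • y' 0) = 0
      rw [map_zero, smul_zero, map_zero, map_zero, AddMonoidHom.zero_apply, add_zero]
    have h2 : ∀ i, dl x (i, col ([] : List (Fin k × V)) i) = 0 := fun i => dl_zero x i
    show (0 : A) + 0 = _
    rw [Finset.sum_congr rfl fun i _ => h1 i, Finset.sum_const_zero, zero_add, zero_add]
    refine (Finset.sum_eq_zero fun j _ => Finset.sum_eq_zero fun i _ => ?_).symm
    rw [h2, h2, map_zero, ite_self]
  | cons q P ih =>
    obtain ⟨i, v⟩ := q
    obtain ⟨hv, hxv⟩ := hP (i, v) List.mem_cons_self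
    have hP' : AllGd x y y' P := fun p hp => hP p (List.mem_cons_of_mem _ hp)
    have ih' := ih hP'
    obtain ⟨U, hU⟩ : ∃ U : Fin k → V, ∀ j, col P j = U j := ⟨fun j => col P j, fun _ => rfl⟩
    have hUg : ∀ j, Gd y y' (U j) ∧ Gd y y' (x j • U j) := fun j => by
      rw [← hU]
      exact col_gd x P hP' j
    have hU' : ∀ j, col ((i, v) :: P) j = (if i = j then v else 0) + U j := fun j => by
      rw [col_cons, hU]
    obtain ⟨e, he⟩ : ∃ e : V, e = dl x (i, v) := ⟨_, rfl⟩
    have heg : Gd y y' e := by
      rw [he]
      exact hxv.sub hv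
    obtain ⟨D, hD⟩ : ∃ D : Fin k → V, ∀ j, dl x (j, U j) = D j := ⟨_, fun _ => rfl⟩
    -- the sum of the first coordinates
    have hsum : (P.map (dl x)).sum = ∑ j, D j := by
      have h1 := sum_col (dlH (V := V) x) P
      have h2 : (P.map fun q => dlH (V := V) x q.1 q.2) = P.map (dl x) := rfl
      rw [h2] at h1
      rw [h1]
      refine Finset.sum_congr rfl fun j _ => ?_
      rw [dlH_apply, hU, hD]
    -- the cost
    have hK : (P.map (kap x β (i, v))).sum = ∑ j, kap x β (i, v) (j, U j) := by
      have h1 := sum_col (hh x β i v) P
      have h2 : (P.map fun q => hh x β i v q.1 q.2) = P.map (kap x β (i, v)) :=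
        List.map_congr_left fun q _ => hh_apply x i v q.1 q.2
      rw [h2] at h1
      rw [h1]
      refine Finset.sum_congr rfl fun j _ => ?_
      rw [hh_apply, hU]
    -- the single terms
    have hS1 : ∑ j, yv x β y y' (j, col ((i, v) :: P) j) =
        (yv x β y y' (i, v) + (β v (D i) + β (y e) (D i))) + ∑ j, yv x β y y' (j, U j) := by
      have h1 : ∀ j, yv x β y y' (j, col ((i, v) :: P) j) =
          (if i = j then yv x β y y' (i, v) + (β v (D i) + β (y e) (D i)) else 0) +
            yv x β y y' (j, U j) := by
        intro j
        rw [hU']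
        by_cases hij : i = j
        · subst hij
          rw [if_pos rfl, if_pos rfl, yv_add x M i hv hxv (hUg i).1 (hUg i).2, hD, ← he]
          abel
        · rw [if_neg hij, if_neg hij, zero_add, zero_add]
      rw [Finset.sum_congr rfl fun j _ => h1 j, Finset.sum_add_distrib, Finset.sum_ite_eq,
        if_pos (Finset.mem_univ i)]
    -- the double terms
    have hD' : ∀ j, dl x (j, col ((i, v) :: P) j) = (if i = j then e else 0) + D j := by
      intro j
      rw [hU', dl_add, hD]
      by_cases hij : i = j
      · rw [if_pos hij, if_pos hij, ← hij, he]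
      · rw [if_neg hij, if_neg hij, dl_zero]
    have hS2 : ∑ j, ∑ a, (if a < j then β (y (dl x (a, col ((i, v) :: P) a)))
        (dl x (j, col ((i, v) :: P) j)) else 0) =
        ∑ j, ∑ a, (if a < j then β (y (D a)) (D j) else 0) +
          (∑ j, (if i < j then β (y e) (D j) else 0) +
            ∑ a, (if a < i then β (y (D a)) e else 0)) := by
      have h1 : ∀ j a, (if a < j then β (y (dl x (a, col ((i, v) :: P) a)))
          (dl x (j, col ((i, v) :: P) j)) else 0) =
          (if a < j then β (y (D a)) (D j) else 0) +
            ((if i = a then (if i < j then β (y e) (D j) else 0) else 0) +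
              (if i = j then (if a < i then β (y (D a)) e else 0) else 0)) := by
        intro j a
        rw [hD', hD']
        by_cases haj : a < j
        · rw [if_pos haj, if_pos haj]
          by_cases hia : i = a
          · have hij : ¬ i = j := fun h => by
              rw [← hia, ← h] at haj
              exact lt_irrefl _ haj
            have hij' : i < j := by
              rw [hia]
              exact haj
            rw [if_pos hia, if_neg hij, if_neg hij, if_pos hia, if_pos hij', zero_add, add_zero,
              map_add, map_add, AddMonoidHom.add_apply, add_comm]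
          · by_cases hij : i = j
            · have hai : a < i := by
                rw [hij]
                exact haj
              rw [if_neg hia, if_pos hij, if_neg hia, if_pos hij, if_pos hai, zero_add, zero_add,
                map_add, add_comm]
            · rw [if_neg hia, if_neg hij, if_neg hia, if_neg hij, zero_add, zero_add, zero_add,
                add_zero]
        · rw [if_neg haj, if_neg haj, zero_add]
          have h2 : (if i = a then (if i < j then β (y e) (D j) else 0) else 0) = 0 := by
            by_cases hia : i = a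
            · rw [if_pos hia, if_neg (by
                rw [hia]
                exact haj)]
            · rw [if_neg hia]
          have h3 : (if i = j then (if a < i then β (y (D a)) e else 0) else 0) = 0 := by
            by_cases hij : i = j
            · rw [if_pos hij, if_neg (by
                rw [hij]
                exact haj)]
            · rw [if_neg hij]
          rw [h2, h3, add_zero]
      have h4 : ∑ j, ∑ a, (if i = a then (if i < j then β (y e) (D j) else 0) else 0) =
          ∑ j, (if i < j then β (y e) (D j) else 0) := by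
        refine Finset.sum_congr rfl fun j _ => ?_
        rw [Finset.sum_ite_eq, if_pos (Finset.mem_univ i)]
      have h5 : ∑ j, ∑ a, (if i = j then (if a < i then β (y (D a)) e else 0) else 0) =
          ∑ a, (if a < i then β (y (D a)) e else 0) := by
        rw [Finset.sum_comm]
        refine Finset.sum_congr rfl fun a _ => ?_
        rw [Finset.sum_ite_eq, if_pos (Finset.mem_univ i)]
      rw [Finset.sum_congr rfl fun j _ => Finset.sum_congr rfl fun a _ => h1 j a]
      simp only [Finset.sum_add_distrib]
      rw [h4, h5]
    -- the comparison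
    have hcmp : β (y e) (∑ j, D j) + ∑ j, kap x β (i, v) (j, U j) =
        (β v (D i) + β (y e) (D i)) + (∑ j, (if i < j then β (y e) (D j) else 0) +
            ∑ a, (if a < i then β (y (D a)) e else 0)) := by
      have h1 : β v (D i) + β (y e) (D i) =
          ∑ j, (if i = j then β v (D i) + β (y e) (D i) else 0) := by
        rw [Finset.sum_ite_eq, if_pos (Finset.mem_univ i)]
      rw [map_sum, h1, ← Finset.sum_add_distrib, ← Finset.sum_add_distrib, ← Finset.sum_add_distrib]
      refine Finset.sum_congr rfl fun j _ => ?_
      have h2 : kap x β (i, v) (j, U j) = if j < i then β e (D j) else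
          if j = i then β v (D j) else 0 := by
        rw [← hD, he]
        rfl
      rw [h2]
      rcases lt_trichotomy i j with h | h | h
      · rw [if_neg (lt_asymm h), if_neg h.ne', if_neg h.ne, if_pos h, if_neg (lt_asymm h),
          zero_add, add_zero]
      · rw [← h, if_neg (lt_irrefl i), if_pos rfl, if_pos rfl, if_neg (lt_irrefl i),
          if_neg (lt_irrefl i), add_zero, add_zero, add_comm]
      · rw [if_pos h, if_neg h.ne', if_neg (lt_asymm h), if_pos h, zero_add, zero_add,
          ← R1 M heg (D j), ← add_assoc, M.b2, zero_add]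
    have hccl : ccl x β y y' ((i, v) :: P) + kp x β ((i, v) :: P) =
        (ccl x β y y' P + kp x β P) + yv x β y y' (i, v) +
          (β (y e) (P.map (dl x)).sum + (P.map (kap x β (i, v))).sum) := by
      have h1 : kp x β ((i, v) :: P) = (P.map (kap x β (i, v))).sum + kp x β P := rfl
      rw [ccl_cons, h1, ← he]
      abel
    have ih'' : ccl x β y y' P + kp x β P = ∑ j, yv x β y y' (j, U j) +
        ∑ j, ∑ a, (if a < j then β (y (D a)) (D j) else 0) := by
      rw [ih']
      simp only [hU, hD]
    rw [hccl, hsum, hK, hcmp, ih'', hS1, hS2]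
    abel

theorem coll_val (M : Mdl G β y y') (P : List (Fin k × V)) (hP : AllGd x y y' P) :
    ∃ a b a' b' : Fin k → V, ccl x β y y' P + kp x β P = ∑ i, β (a i) (b i) +
      ∑ i, β (a' i) (b' i) := by
  classical
  refine ⟨fun i => y (dl x (i, col P i)) + y ((x i)⁻¹ • y' (x i • col P i)), fun i => col P i,
    fun j => ∑ i, (if i < j then y (dl x (i, col P i)) else 0), fun j => dl x (j, col P j), ?_⟩
  rw [coll x M P hP]
  congr 1
  · refine Finset.sum_congr rfl fun i _ => ?_
    have h1 : rho β y' (x i) (col P i) =
        β (y ((x i)⁻¹ • y' (x i • col P i))) (col P i) := by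
      have h2 := M.inv (x i) ((x i)⁻¹ • y' (x i • col P i)) (y' (col P i))
      rw [smul_inv_smul] at h2
      rw [M.adj]
      exact h2
    show β (y (dl x (i, col P i))) (col P i) + rho β y' (x i) (col P i) = _
    rw [h1, map_add, AddMonoidHom.add_apply]
  · refine Finset.sum_congr rfl fun j _ => ?_
    rw [map_sum, AddMonoidHom.finsetSum_apply]
    refine Finset.sum_congr rfl fun i _ => ?_
    by_cases h : i < j
    · rw [if_pos h, if_pos h]
    · rw [if_neg h, if_neg h, map_zero, AddMonoidHom.zero_apply]

end Pool.Agent.OW
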