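import Pool.Agent.Helper33.CW2.EL

/-!
# OW: commutator width, odd actions. Definitions

`V` is an elementary abelian 2-group with an action of `G`, `β : V →+ V →+ A` a symmetric, alternating,
`G`-invariant form; `y, y' : V →+ V` are adjoint operators all of whose conjugates commute. A vector `v`
is GOOD if `y v + y' v = v` (`Gd`). On good vectors `Φ(u, v) = β (y u) v` satisfies
`Φ(u, v) + Φ(v, u) = β(u, v)`, and the maps `α_g (u, c) = (g u, c + ρ_g u)`,
`ρ_g u = β (y' (g u)) (g (y' u))`, are automorphisms of the group `V × A` with the product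
`(u, c) (v, c') = (u + v, c + c' + Φ(u, v))`. This is the MODEL in which the collection process of
`Helper33/CW2` is evaluated.
-/

open scoped commutatorElement

namespace Pool.Agent.OW

open Pool.Agent.Helper26.CW Pool.Agent.Helper33.CW2

section forms

/-- The standing hypotheses. -/
structure Mdl (G : Type*) {V A : Type*} [Group G] [AddCommGroup V] [DistribMulAction G V]
    [AddCommGroup A] (β : V →+ V →+ A) (y y' : V →+ V) : Prop where
  two : ∀ v : V, v + v = 0
  sym : ∀ u v : V, β u v = β v u
  alt : ∀ v : V, β v v = 0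
  inv : ∀ (g : G) (u v : V), β (g • u) (g • v) = β u v
  adj : ∀ u v : V, β (y u) v = β u (y' v)
  c1 : ∀ (g : G) (v : V), y (g • y (g⁻¹ • v)) = g • y (g⁻¹ • y v)
  c2 : ∀ (g : G) (v : V), y (g • y' (g⁻¹ • v)) = g • y' (g⁻¹ • y v)
  c3 : ∀ (g : G) (v : V), y' (g • y' (g⁻¹ • v)) = g • y' (g⁻¹ • y' v)

variable {G V A : Type*} [Group G] [AddCommGroup V] [DistribMulAction G V] [AddCommGroup A]
  {k : ℕ}

/-- Good vectors. -/
def Gd (y y' : V →+ V) (v : V) : Prop := y v + y' v = v

lemma Gd.zero (y y' : V →+ V) : Gd y y' 0 := by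
  unfold Gd; rw [map_zero, map_zero, add_zero]

lemma Gd.add {y y' : V →+ V} {u v : V} (hu : Gd y y' u) (hv : Gd y y' v) : Gd y y' (u + v) := by
  unfold Gd at *
  rw [map_add, map_add, add_add_add_comm, hu, hv]

lemma Gd.neg {y y' : V →+ V} {u : V} (hu : Gd y y' u) : Gd y y' (-u) := by
  unfold Gd at *
  rw [map_neg, map_neg, ← neg_add, hu]

lemma Gd.sub {y y' : V →+ V} {u v : V} (hu : Gd y y' u) (hv : Gd y y' v) : Gd y y' (u - v) := by
  rw [sub_eq_add_neg]; exact hu.add hv.neg

/-- The second coordinate of the action of `g` in the model. -/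
def rho (β : V →+ V →+ A) (y' : V →+ V) (g : G) (u : V) : A := β (y' (g • u)) (g • y' u)

variable (x : Fin k → G)

/-- The first coordinate of `[xᵢ, v]`. -/
def dl (p : Fin k × V) : V := x p.1 • p.2 - p.2

/-- The second coordinate of `[xᵢ, v]` in the model. -/
def yv (β : V →+ V →+ A) (y y' : V →+ V) (p : Fin k × V) : A :=
  β (y (dl x p)) p.2 + rho β y' (x p.1) p.2

/-- The second coordinate of a product of commutators `[xᵢ, v]` in the model. -/
def ccl (β : V →+ V →+ A) (y y' : V →+ V) : List (Fin k × V) → A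
  | [] => 0
  | p :: P => yv x β y y' p + β (y (dl x p)) (P.map (dl x)).sum + ccl β y y' P

/-- The collected vectors. -/
def col (P : List (Fin k × V)) (i : Fin k) : V := (P.map fun p => if p.1 = i then p.2 else 0).sum

/-- All letters are good. -/
def AllGd (y y' : V →+ V) (P : List (Fin k × V)) : Prop :=
  ∀ p ∈ P, Gd y y' p.2 ∧ Gd y y' (x p.1 • p.2)

/-- The value `∑ a • v` of a list of group elements at a vector. -/
def ls (l : List G) (v : V) : V := (l.map fun a => a • v).sum

/-- The operator `∑_{i < j} aᵢ⁻¹ aⱼ` of the list `a₁, a₂, ...`. -/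
def yo : List G → (V →+ V)
  | [] => 0
  | h :: t => (t.map fun a => DistribSMul.toAddMonoidHom V (h⁻¹ * a)).sum + yo t

/-- The operator `∑_{i < j} aⱼ⁻¹ aᵢ` of the list `a₁, a₂, ...`. -/
def yo' : List G → (V →+ V)
  | [] => 0
  | h :: t => (t.map fun a => DistribSMul.toAddMonoidHom V (a⁻¹ * h)).sum + yo' t

end forms

end Pool.Agent.OW
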