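import Pool.Agent.OW.Defs

/-!
# OW-EL2: the E-lemma with explicit words

PLAN. This is the proof of `elemma` in `Helper33/CW2/EL.lean` (public ingredients: `tele`, `collect`), with
the words given in the list instead of chosen. Key claim (induction on `L`, exactly as there): there is
`P : List (Fin k × N)` with `P.map (id, π) = L.flatMap ...` and
`toMul (∑ β (π n) (π u)) = (P.map ⁅x p.1, p.2⁆).prod * toMul (∑ ∑ negs)` (`tele` for the word `z.1` and
`u = z.2.2`; `β (π n) (π u) = om N hc n u` is the commutator `⁅n, u⁆`, `n = ev x z.1`). Everything is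
central of order 2, so `(P.map ...).prod = toMul (∑ β + ∑ negs)`, and `collect` gives the statement.
-/

open scoped commutatorElement

namespace Pool.Agent.OW

open Pool.Agent.Helper26.CW Pool.Agent.Helper33.CW2

attribute [local instance] centerCommGroup

universe u

theorem el2 {G V : Type u} [Group G] [AddCommGroup V] [DistribMulAction G V] {k : ℕ}
    (x : Fin k → G) (N : Subgroup G) [hN : N.Normal]
    (hc : ∀ r ∈ N, ∀ s ∈ N, ⁅r, s⁆ ∈ Subgroup.center G)
    (he : ∀ r ∈ N, ∀ s ∈ N, ⁅r, s⁆ ^ 2 = 1) (π : N → V)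
    (β : V →+ V →+ Additive (Subgroup.center G)) (hπ : ∀ a b, π (a * b) = π a + π b)
    (hV : ∀ v : V, v + v = 0) (hcj : ∀ (g : G) a, π (cj N g a) = g • π a)
    (hβ : ∀ a b, β (π a) (π b) = om N hc a b)
    (L : List (List (Fin k × Bool) × N × N)) (hL : ∀ z ∈ L, ev x z.1 = (z.2.1 : G)) :
    IsProdComm k ((Additive.toMul (
      (L.map fun z => β (π z.2.1) (π z.2.2)).sum +
      (L.map fun z => ((negs x z.1).map fun p => β (p.1 • π z.2.2) (p.2 • π z.2.2)).sum).sum +
      kp x β (L.flatMap fun z => (lets x z.1).map fun p => (p.1, p.2 • π z.2.2))) :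
        Subgroup.center G) : G) := by
  have h2 : ∀ u v : V, β u v + β u v = 0 := by
    intro u v
    rw [← AddMonoidHom.map_add, hV, map_zero]
  -- the group level identity
  have key : ∀ L : List (List (Fin k × Bool) × N × N), (∀ z ∈ L, ev x z.1 = (z.2.1 : G)) →
      ∃ P : List (Fin k × N), (P.map fun p => (p.1, π p.2)) =
        (L.flatMap fun z => (lets x z.1).map fun p => (p.1, p.2 • π z.2.2)) ∧
      ((Additive.toMul ((L.map fun z => β (π z.2.1) (π z.2.2)).sum) :
          Subgroup.center G) : G) =
        (P.map fun p => ⁅x p.1, (p.2 : G)⁆).prod *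
        ((Additive.toMul ((L.map fun z => ((negs x z.1).map fun p =>
          β (p.1 • π z.2.2) (p.2 • π z.2.2)).sum).sum) : Subgroup.center G) : G) := by
    intro L
    induction L with
    | nil => intro _; exact ⟨[], rfl, by simp⟩
    | cons y L ih =>
      intro hL
      obtain ⟨P, hP1, hP2⟩ := ih fun z hz => hL z (List.mem_cons_of_mem _ hz)
      obtain ⟨P', hP1', hP2'⟩ := tele x N hc he π β hπ hV hcj hβ y.1 y.2.2
      refine ⟨P' ++ P, ?_, ?_⟩
      · rw [List.map_append, hP1, hP1', List.flatMap_cons]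
      · have h3 : ((Additive.toMul (β (π y.2.1) (π y.2.2)) : Subgroup.center G) : G) =
            ⁅ev x y.1, (y.2.2 : G)⁆ := by
          rw [hβ, om_def, hL y List.mem_cons_self]
        rw [List.map_cons, List.sum_cons, Pool.Agent.Helper26.CW.toMul_add, h3, hP2', hP2,
          List.map_append, List.prod_append, List.map_cons, List.sum_cons,
          Pool.Agent.Helper26.CW.toMul_add]
        generalize (List.map (fun p => β (p.1 • π y.2.2) (p.2 • π y.2.2)) (negs x y.1)).sum = c
        have h5 := comm_of_center (Additive.toMul c : Subgroup.center G).2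
          (P.map fun p => ⁅x p.1, (p.2 : G)⁆).prod
        simp only [mul_assoc]
        rw [← mul_assoc ((Additive.toMul c : Subgroup.center G) : G), ← h5]
        simp only [mul_assoc]
  obtain ⟨P, hP1, hP2⟩ := key L hL
  have hcol := collect x N hc he π β hπ hV hcj hβ P
  rw [hP1] at hcol
  obtain ⟨s, hs⟩ : ∃ s, s = (L.map fun z => β (π z.2.1) (π z.2.2)).sum := ⟨_, rfl⟩
  obtain ⟨t, ht⟩ : ∃ t, t = (L.map fun z => ((negs x z.1).map fun p =>
    β (p.1 • π z.2.2) (p.2 • π z.2.2)).sum).sum := ⟨_, rfl⟩
  rw [← hs, ← ht] at hP2 ⊢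
  have hlist : ∀ (l : List (Additive (Subgroup.center G))), (∀ a ∈ l, a + a = 0) →
      l.sum + l.sum = 0 := by
    intro l
    induction l with
    | nil => intro _; simp
    | cons a l ih =>
      intro h
      rw [List.sum_cons, add_add_add_comm, h a List.mem_cons_self,
        ih fun b hb => h b (List.mem_cons_of_mem _ hb), add_zero]
  have htt : t + t = 0 := by
    rw [ht]
    apply hlist
    intro a ha
    obtain ⟨y, -, rfl⟩ := List.mem_map.1 ha
    apply hlist
    intro a ha
    obtain ⟨p, -, rfl⟩ := List.mem_map.1 ha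
    exact h2 _ _
  have hprod : (P.map fun p => ⁅x p.1, (p.2 : G)⁆).prod =
      ((Additive.toMul (s + t) : Subgroup.center G) : G) := by
    have h6 : ((Additive.toMul (t + t) : Subgroup.center G) : G) = 1 := by
      rw [htt, Pool.Agent.Helper26.CW.toMul_zero]
    rw [Pool.Agent.Helper26.CW.toMul_add] at h6
    rw [Pool.Agent.Helper26.CW.toMul_add, hP2, mul_assoc, h6, mul_one]
  rw [hprod, ← Pool.Agent.Helper26.CW.toMul_add] at hcol
  exact hcol

end Pool.Agent.OW
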