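import Pool.Agent.OW.Defs

/-!
# OW-Kill: one list of odd length kills finitely many vectors of `[V, H]`

The product of two lists (`ml`) acts by the composition, and its length is the product of the lengths.
-/

namespace Pool.Agent.OW

variable {G V : Type*} [Group G] [AddCommGroup V] [DistribMulAction G V]

private lemma ls_nil (v : V) : ls ([] : List G) v = 0 := by simp [ls]

private lemma ls_cons (a : G) (l : List G) (v : V) : ls (a :: l) v = a • v + ls l v := by simp [ls]

private lemma ls_append (l m : List G) (v : V) : ls (l ++ m) v = ls l v + ls m v := by simp [ls]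

private lemma ls_zero (l : List G) : ls l (0 : V) = 0 := by
  induction l with
  | nil => exact ls_nil _
  | cons a l ih => rw [ls_cons, ih, smul_zero, add_zero]

private lemma ls_add (l : List G) (u v : V) : ls l (u + v) = ls l u + ls l v := by
  induction l with
  | nil => simp [ls_nil]
  | cons a l ih => rw [ls_cons, ls_cons, ls_cons, ih, smul_add, add_add_add_comm]

private lemma smul_ls (a : G) (l : List G) (v : V) : a • ls l v = ls (l.map fun b => a * b) v := by
  induction l with
  | nil => simp [ls]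
  | cons b l ih => rw [ls_cons, List.map_cons, ls_cons, smul_add, ih, mul_smul]

/-- the product of two lists -/
private def ml (l m : List G) : List G := l.flatMap fun a => m.map fun b => a * b

private lemma ls_ml (l m : List G) (v : V) : ls (ml l m) v = ls l (ls m v) := by
  induction l with
  | nil => simp [ml, ls_nil]
  | cons a l ih =>
    have h : ml (a :: l) m = (m.map fun b => a * b) ++ ml l m := by simp [ml]
    rw [h, ls_append, ls_cons, ih, smul_ls]

private lemma length_ml (l m : List G) : (ml l m).length = l.length * m.length := by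
  induction l with
  | nil => simp [ml]
  | cons a l ih =>
    have h : ml (a :: l) m = (m.map fun b => a * b) ++ ml l m := by simp [ml]
    rw [h, List.length_append, List.length_map, ih, List.length_cons]
    ring

private lemma mem_ml {H : Subgroup G} {l m : List G} (hl : ∀ a ∈ l, a ∈ H) (hm : ∀ a ∈ m, a ∈ H) :
    ∀ a ∈ ml l m, a ∈ H := by
  intro a ha
  unfold ml at ha
  rw [List.mem_flatMap] at ha
  obtain ⟨b, hb, hab⟩ := ha
  rw [List.mem_map] at hab
  obtain ⟨c, hc, rfl⟩ := hab
  exact H.mul_mem (hl b hb) (hm c hc)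

private lemma smul_ls_comm {H : Subgroup G}
    (hH : ∀ h ∈ H, ∀ h' ∈ H, ∀ v : V, h • h' • v = h' • h • v) {a : G} (ha : a ∈ H) {l : List G}
    (hl : ∀ b ∈ l, b ∈ H) (v : V) : a • ls l v = ls l (a • v) := by
  induction l with
  | nil => simp [ls]
  | cons b l ih =>
    rw [ls_cons, ls_cons, smul_add, ih fun c hc => hl c (List.mem_cons_of_mem _ hc),
      hH a ha b (hl b List.mem_cons_self) v]

private lemma ls_comm {H : Subgroup G}
    (hH : ∀ h ∈ H, ∀ h' ∈ H, ∀ v : V, h • h' • v = h' • h • v) {l m : List G}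
    (hl : ∀ a ∈ l, a ∈ H) (hm : ∀ a ∈ m, a ∈ H) (v : V) : ls l (ls m v) = ls m (ls l v) := by
  induction l with
  | nil => rw [ls_nil, ls_nil, ls_zero]
  | cons a l ih =>
    rw [ls_cons, ls_cons, ls_add, ih fun c hc => hl c (List.mem_cons_of_mem _ hc),
      smul_ls_comm hH (hl a List.mem_cons_self) hm]

/-- `v` is killed by a list of odd length of elements of `H`. -/
def OddK (H : Subgroup G) (v : V) : Prop :=
  ∃ l : List G, Odd l.length ∧ (∀ a ∈ l, a ∈ H) ∧ ls l v = 0

theorem kill_one (hV : ∀ v : V, v + v = 0) (H : Subgroup G)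
    (hH : ∀ h ∈ H, ∀ h' ∈ H, ∀ v : V, h • h' • v = h' • h • v)
    (hst : ∀ h ∈ H, ∀ v : V, OddK H (h • v - v)) {v : V}
    (hv : v ∈ AddSubgroup.closure {w : V | ∃ h ∈ H, ∃ u : V, w = h • u - u}) : OddK H v := by
  induction hv using AddSubgroup.closure_induction with
  | mem w hw =>
    obtain ⟨h, hh, u, rfl⟩ := hw
    exact hst h hh u
  | zero =>
    refine ⟨[1], by simp, fun a ha => ?_, ls_zero _⟩
    rw [List.mem_singleton.1 ha]
    exact H.one_mem
  | add u v _ _ hu hv =>
    obtain ⟨l, hl, hlH, hl0⟩ := hu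
    obtain ⟨m, hm, hmH, hm0⟩ := hv
    refine ⟨ml l m, ?_, mem_ml hlH hmH, ?_⟩
    · rw [length_ml]
      exact hl.mul hm
    · rw [ls_ml, ls_add, hm0, add_zero, ls_comm hH hlH hmH, hl0, ls_zero]
  | neg v _ hv =>
    have h : -v = v := neg_eq_of_add_eq_zero_left (hV v)
    rwa [h]

theorem kill_fin (hV : ∀ v : V, v + v = 0) (H : Subgroup G)
    (hH : ∀ h ∈ H, ∀ h' ∈ H, ∀ v : V, h • h' • v = h' • h • v)
    (hst : ∀ h ∈ H, ∀ v : V, OddK H (h • v - v)) (S : List V)
    (hS : ∀ v ∈ S, v ∈ AddSubgroup.closure {w : V | ∃ h ∈ H, ∃ u : V, w = h • u - u}) :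
    ∃ l : List G, Odd l.length ∧ (∀ a ∈ l, a ∈ H) ∧ ∀ v ∈ S, ls l v = 0 := by
  induction S with
  | nil =>
    refine ⟨[1], by simp, fun a ha => ?_, fun v hv => by simp at hv⟩
    rw [List.mem_singleton.1 ha]
    exact H.one_mem
  | cons u S ih =>
    obtain ⟨l, hl, hlH, hl0⟩ := ih fun v hv => hS v (List.mem_cons_of_mem _ hv)
    obtain ⟨m, hm, hmH, hm0⟩ := kill_one hV H hH hst (hS u List.mem_cons_self)
    refine ⟨ml l m, ?_, mem_ml hlH hmH, fun v hv => ?_⟩
    · rw [length_ml]
      exact hl.mul hm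
    · rw [ls_ml]
      rcases List.mem_cons.1 hv with rfl | hv
      · rw [hm0, ls_zero]
      · rw [ls_comm hH hlH hmH, hl0 v hv, ls_zero]

/-- `[V, H]` is stable under `G`, when `H` is normal. -/
theorem smul_mem_cl (H : Subgroup G) (hHn : H.Normal) (g : G) {v : V}
    (hv : v ∈ AddSubgroup.closure {w : V | ∃ h ∈ H, ∃ u : V, w = h • u - u}) :
    g • v ∈ AddSubgroup.closure {w : V | ∃ h ∈ H, ∃ u : V, w = h • u - u} := by
  induction hv using AddSubgroup.closure_induction with
  | mem w hw =>
    obtain ⟨h, hh, u, rfl⟩ := hw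
    refine AddSubgroup.subset_closure ⟨g * h * g⁻¹, hHn.conj_mem h hh g, g • u, ?_⟩
    rw [smul_sub, mul_smul, mul_smul, inv_smul_smul]
  | zero => rw [smul_zero]; exact AddSubgroup.zero_mem _
  | add u v _ _ hu hv => rw [smul_add]; exact AddSubgroup.add_mem _ hu hv
  | neg v _ hv => rw [smul_neg]; exact AddSubgroup.neg_mem _ hv

end Pool.Agent.OW
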