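import Pool.Agent.OW.Defs

/-!
# OW-Op: the operators `y = ∑_{i < j} aᵢ⁻¹ aⱼ`, `y' = ∑_{i < j} aⱼ⁻¹ aᵢ` of a list

PLAN. `op_sq`: induction on `l` (with `ls (h :: t) v = h • v + ls t v`,
`yo (h :: t) v = h⁻¹ • ls t v + yo t v`, `yo' (h :: t) v = ∑_{a ∈ t} (a⁻¹ h) • v + yo' t v`).
`op_good`: `op_sq`, `l.length • v = v` for odd length (`v + v = 0`).
`op_mdl`: `adj`: induction on `l`, `β ((h⁻¹ * a) • u) v = β u ((a⁻¹ * h) • v)` by invariance.
`c1`, `c2`, `c3`: `yo l v = ∑ of m • v` over a list of `m ∈ H`, the same for `yo'`; for `m, m' ∈ H`: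
`m • g • m' • g⁻¹ • v = g • m' • g⁻¹ • m • v` since `g m' g⁻¹ ∈ H` commutes with `m` on `V`.
It may be convenient to prove first: `∃ ms : List G, (∀ m ∈ ms, m ∈ H) ∧ ∀ v, yo l v = ls ms v` and the
same for `yo'`.
-/

namespace Pool.Agent.OW

variable {G V A : Type*} [Group G] [AddCommGroup V] [DistribMulAction G V] [AddCommGroup A]

private lemma ls_nil (v : V) : ls ([] : List G) v = 0 := rfl

private lemma ls_cons (h : G) (t : List G) (v : V) : ls (h :: t) v = h • v + ls t v := by
  simp [ls]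

private lemma ls_append (s t : List G) (v : V) : ls (s ++ t) v = ls s v + ls t v := by
  simp [ls]

private lemma ls_add (t : List G) (u v : V) : ls t (u + v) = ls t u + ls t v := by
  induction t with
  | nil => simp [ls_nil]
  | cons h t ih => rw [ls_cons, ls_cons, ls_cons, ih, smul_add]; abel

private lemma ls_zero (t : List G) : ls t (0 : V) = 0 := by
  induction t with
  | nil => simp [ls_nil]
  | cons h t ih => rw [ls_cons, ih, smul_zero, add_zero]

private lemma ls_map_left (h : G) (t : List G) (v : V) :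
    ls (t.map fun a => h * a) v = h • ls t v := by
  induction t with
  | nil => simp [ls_nil]
  | cons a t ih => rw [List.map_cons, ls_cons, ls_cons, ih, smul_add, mul_smul]

private lemma ls_map_right (h : G) (t : List G) (v : V) :
    ls (t.map fun a => a⁻¹ * h) v = ls (t.map fun a => a⁻¹) (h • v) := by
  induction t with
  | nil => simp [ls_nil]
  | cons a t ih => rw [List.map_cons, List.map_cons, ls_cons, ls_cons, ih, mul_smul]

private lemma am_sum (L : List G) (f : G → G) (v : V) :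
    ((L.map fun a => DistribSMul.toAddMonoidHom V (f a)).sum) v = ls (L.map f) v := by
  induction L with
  | nil => simp [ls_nil]
  | cons a t ih =>
    rw [List.map_cons, List.sum_cons, AddMonoidHom.add_apply, ih, List.map_cons, ls_cons]
    rfl

private lemma yo_cons (h : G) (t : List G) (v : V) :
    yo (h :: t) v = ls (t.map fun a => h⁻¹ * a) v + yo t v := by
  rw [yo, AddMonoidHom.add_apply, am_sum]

private lemma yo'_cons (h : G) (t : List G) (v : V) :
    yo' (h :: t) v = ls (t.map fun a => a⁻¹ * h) v + yo' t v := by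
  rw [yo', AddMonoidHom.add_apply, am_sum]

private lemma yo_nil (v : V) : yo ([] : List G) v = 0 := rfl

private lemma yo'_nil (v : V) : yo' ([] : List G) v = 0 := rfl

theorem op_sq (l : List G) (v : V) :
    ls (l.map fun a => a⁻¹) (ls l v) = l.length • v + yo l v + yo' l v := by
  induction l with
  | nil => simp [ls_nil, yo_nil, yo'_nil]
  | cons h t ih =>
    rw [List.map_cons, ls_cons, ls_cons, smul_add, inv_smul_smul, ls_add, ih, yo_cons, yo'_cons,
      ls_map_left, ls_map_right, List.length_cons, succ_nsmul]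
    abel

theorem op_good (hV : ∀ v : V, v + v = 0) (l : List G) (hl : Odd l.length) {v : V}
    (h : ls l v = 0) : Gd (yo l) (yo' l) v := by
  have h1 := op_sq l v
  rw [h, ls_zero] at h1
  obtain ⟨m, hm⟩ := hl
  have h2 : l.length • v = v := by
    rw [hm, succ_nsmul, mul_nsmul, two_nsmul, hV, smul_zero, zero_add]
  rw [h2, add_assoc] at h1
  unfold Gd
  have h3 : -v = v := by
    rw [neg_eq_iff_add_eq_zero]; exact hV v
  calc yo l v + yo' l v = -v := by
        rw [eq_neg_iff_add_eq_zero, add_comm]; exact h1.symm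
    _ = v := h3

private lemma yo_list (H : Subgroup G) (l : List G) (hl : ∀ a ∈ l, a ∈ H) :
    ∃ ms : List G, (∀ m ∈ ms, m ∈ H) ∧ ∀ v : V, yo l v = ls ms v := by
  induction l with
  | nil => exact ⟨[], by simp, fun v => rfl⟩
  | cons h t ih =>
    obtain ⟨ms, h1, h2⟩ := ih (fun a ha => hl a (List.mem_cons_of_mem _ ha))
    refine ⟨(t.map fun a => h⁻¹ * a) ++ ms, ?_, fun v => ?_⟩
    · intro m hm
      rcases List.mem_append.1 hm with hm | hm
      · obtain ⟨a, ha, rfl⟩ := List.mem_map.1 hm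
        exact H.mul_mem (H.inv_mem (hl h List.mem_cons_self)) (hl a (List.mem_cons_of_mem _ ha))
      · exact h1 m hm
    · rw [yo_cons, ls_append, h2]

private lemma yo'_list (H : Subgroup G) (l : List G) (hl : ∀ a ∈ l, a ∈ H) :
    ∃ ms : List G, (∀ m ∈ ms, m ∈ H) ∧ ∀ v : V, yo' l v = ls ms v := by
  induction l with
  | nil => exact ⟨[], by simp, fun v => rfl⟩
  | cons h t ih =>
    obtain ⟨ms, h1, h2⟩ := ih (fun a ha => hl a (List.mem_cons_of_mem _ ha))
    refine ⟨(t.map fun a => a⁻¹ * h) ++ ms, ?_, fun v => ?_⟩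
    · intro m hm
      rcases List.mem_append.1 hm with hm | hm
      · obtain ⟨a, ha, rfl⟩ := List.mem_map.1 hm
        exact H.mul_mem (H.inv_mem (hl a (List.mem_cons_of_mem _ ha))) (hl h List.mem_cons_self)
      · exact h1 m hm
    · rw [yo'_cons, ls_append, h2]

private lemma ls_comm1 (H : Subgroup G) (hHn : H.Normal)
    (hH : ∀ h ∈ H, ∀ h' ∈ H, ∀ v : V, h • h' • v = h' • h • v) (g m : G) (hm : m ∈ H)
    (ms' : List G) (h' : ∀ a ∈ ms', a ∈ H) (v : V) :
    m • g • ls ms' (g⁻¹ • v) = g • ls ms' (g⁻¹ • m • v) := by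
  induction ms' with
  | nil => simp [ls_nil]
  | cons a t ih =>
    have h1 := ih (fun b hb => h' b (List.mem_cons_of_mem _ hb))
    rw [ls_cons, ls_cons, smul_add, smul_add, smul_add, h1]
    congr 1
    have h2 := hH m hm (g * a * g⁻¹) (hHn.conj_mem a (h' a List.mem_cons_self) g) v
    simpa only [mul_smul] using h2

private lemma ls_comm2 (H : Subgroup G) (hHn : H.Normal)
    (hH : ∀ h ∈ H, ∀ h' ∈ H, ∀ v : V, h • h' • v = h' • h • v) (g : G)
    (ms ms' : List G) (h : ∀ a ∈ ms, a ∈ H) (h' : ∀ a ∈ ms', a ∈ H) (v : V) :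
    ls ms (g • ls ms' (g⁻¹ • v)) = g • ls ms' (g⁻¹ • ls ms v) := by
  induction ms with
  | nil => simp [ls_nil, ls_zero]
  | cons m t ih =>
    rw [ls_cons, ls_cons, ih (fun b hb => h b (List.mem_cons_of_mem _ hb)), smul_add, ls_add,
      smul_add, ls_comm1 H hHn hH g m (h m List.mem_cons_self) ms' h' v]

private lemma adj_aux {β : V →+ V →+ A}
    (hinv : ∀ (g : G) (u v : V), β (g • u) (g • v) = β u v) (h : G) (t : List G) (u v : V) :
    β (ls (t.map fun a => h⁻¹ * a) u) v = β u (ls (t.map fun a => a⁻¹ * h) v) := by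
  induction t with
  | nil => simp [ls_nil]
  | cons a t ih =>
    rw [List.map_cons, List.map_cons, ls_cons, ls_cons, map_add, map_add,
      AddMonoidHom.add_apply, ih]
    congr 1
    have h1 := hinv (a⁻¹ * h) ((h⁻¹ * a) • u) v
    rw [smul_smul, show a⁻¹ * h * (h⁻¹ * a) = 1 by group, one_smul] at h1
    exact h1.symm

theorem op_mdl {β : V →+ V →+ A} (hV : ∀ v : V, v + v = 0) (hsym : ∀ u v, β u v = β v u)
    (halt : ∀ v, β v v = 0) (hinv : ∀ (g : G) (u v : V), β (g • u) (g • v) = β u v)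
    (H : Subgroup G) (hHn : H.Normal)
    (hH : ∀ h ∈ H, ∀ h' ∈ H, ∀ v : V, h • h' • v = h' • h • v) (l : List G)
    (hl : ∀ a ∈ l, a ∈ H) : Mdl G β (yo l) (yo' l) := by
  obtain ⟨ms, h1, h2⟩ := yo_list (V := V) H l hl
  obtain ⟨ms', h1', h2'⟩ := yo'_list (V := V) H l hl
  refine ⟨hV, hsym, halt, hinv, ?_, ?_, ?_, ?_⟩
  · intro u v
    clear h1 h2 h1' h2'
    induction l with
    | nil => simp [yo_nil, yo'_nil]
    | cons h t ih =>
      rw [yo_cons, yo'_cons, map_add, map_add, AddMonoidHom.add_apply,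
        ih (fun b hb => hl b (List.mem_cons_of_mem _ hb)), adj_aux hinv]
  · intro g v
    rw [h2, h2, h2, h2]
    exact ls_comm2 H hHn hH g ms ms h1 h1 v
  · intro g v
    rw [h2, h2', h2', h2]
    exact ls_comm2 H hHn hH g ms ms' h1 h1' v
  · intro g v
    rw [h2', h2', h2', h2']
    exact ls_comm2 H hHn hH g ms' ms' h1' h1' v

end Pool.Agent.OW
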