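import Pool.Agent.OW.Defs
import Pool.Agent.Helper33.CW2.Setup

/-!
# OW-Zset: the module `V = N / Z(N)` and the form `β`

PLAN. As `setup` in `Helper33/CW2/Setup.lean`, with `sqK N` replaced by `Subgroup.center N`: the quotient
`N ⧸ Subgroup.center N` has exponent 2, since `⁅a ^ 2, b⁆ = ⁅a, b⁆ ^ 2 = 1` for `a, b ∈ N` (the
commutators are central in `G`); conjugation by `g` (`MulAut.conjNormal g`) maps the centre of `N` onto
itself; `om N hc` kills the centre of `N` in both variables. `hker`: `π a = 0` iff `a` is in the centre of
`N` iff `⁅a, b⁆ = 1` for all `b ∈ N`.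
-/

open scoped commutatorElement

namespace Pool.Agent.OW

open Pool.Agent.Helper26.CW Pool.Agent.Helper33.CW2

attribute [local instance] centerCommGroup

universe u

section aux

variable {G : Type u} [Group G] (N : Subgroup G)

private lemma zcomap [hN : N.Normal] (g : G) :
    Subgroup.center N ≤ (Subgroup.center N).comap (MulAut.conjNormal (H := N) g).toMonoidHom :=
  (Subgroup.characteristic_iff_le_comap.1 inferInstance) (MulAut.conjNormal (H := N) g)

/-- Conjugation on the quotient. -/
private def zCj [hN : N.Normal] (g : G) : (N ⧸ Subgroup.center N) →* (N ⧸ Subgroup.center N) :=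
  QuotientGroup.map (Subgroup.center N) (Subgroup.center N) (MulAut.conjNormal g).toMonoidHom
    (zcomap N g)

private lemma zCj_mk [hN : N.Normal] (g : G) (a : N) :
    zCj N g (QuotientGroup.mk a) = QuotientGroup.mk (cj N g a) := rfl

variable (hc : ∀ r ∈ N, ∀ s ∈ N, ⁅r, s⁆ ∈ Subgroup.center G)
    (he : ∀ r ∈ N, ∀ s ∈ N, ⁅r, s⁆ ^ 2 = 1)

private lemma om_eq_zero_iff (a b : N) : om N hc a b = 0 ↔ ⁅(a : G), (b : G)⁆ = 1 := by
  constructor
  · intro h
    exact congrArg (fun z : Additive (Subgroup.center G) => ((Additive.toMul z : _) : G)) h
  · intro h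
    apply om_ext
    exact h

private lemma mem_of_om (a : N) (h : ∀ b : N, om N hc a b = 0) : a ∈ Subgroup.center N := by
  rw [Subgroup.mem_center_iff]
  intro b
  have h1 := (om_eq_zero_iff N hc a b).1 (h b)
  rw [commutatorElement_eq_one_iff_mul_comm] at h1
  exact Subtype.ext h1.symm

private lemma om_of_mem (a : N) (h : a ∈ Subgroup.center N) (b : N) : om N hc a b = 0 := by
  rw [Subgroup.mem_center_iff] at h
  rw [om_eq_zero_iff, commutatorElement_eq_one_iff_mul_comm]
  exact (congrArg Subtype.val (h b)).symm

include hc he in
private lemma zquo_sq (x : N ⧸ Subgroup.center N) : x * x = 1 := by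
  induction x using QuotientGroup.induction_on with
  | H a =>
    rw [← QuotientGroup.mk_mul, QuotientGroup.eq_one_iff]
    refine mem_of_om N hc _ fun b => ?_
    rw [om_mul_left]
    exact om_two N hc he a b

/-- The quotient by the centre is commutative. -/
@[reducible] private def zComm : CommGroup (N ⧸ Subgroup.center N) :=
  { (inferInstance : Group (N ⧸ Subgroup.center N)) with
    mul_comm := by
      intro a b
      have h := zquo_sq N hc he (a * b)
      have ha : a⁻¹ = a := inv_eq_of_mul_eq_one_right (zquo_sq N hc he a)
      have hb : b⁻¹ = b := inv_eq_of_mul_eq_one_right (zquo_sq N hc he b)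
      have hab : (a * b)⁻¹ = a * b := inv_eq_of_mul_eq_one_right h
      rw [← hab, mul_inv_rev, ha, hb] }

private lemma zom_congr_left (a a' b : N) (h : a⁻¹ * a' ∈ Subgroup.center N) :
    om N hc a b = om N hc a' b := by
  have : a' = a * (a⁻¹ * a') := by group
  rw [this, om_mul_left, om_of_mem N hc _ h, add_zero]

private lemma zom_congr (a b a' b' : N) (h : a⁻¹ * a' ∈ Subgroup.center N)
    (h' : b⁻¹ * b' ∈ Subgroup.center N) : om N hc a b = om N hc a' b' := by
  rw [zom_congr_left N hc a a' b h, om_swap, zom_congr_left N hc b b' a' h', ← om_swap]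

/-- The form on the quotient. -/
private def zForm (v w : N ⧸ Subgroup.center N) : Additive (Subgroup.center G) :=
  Quotient.liftOn₂' v w (fun a b => om N hc a b) (fun a b a' b' h h' =>
    zom_congr N hc a b a' b' (QuotientGroup.leftRel_apply.1 h) (QuotientGroup.leftRel_apply.1 h'))

private lemma zForm_mul_right (v w w' : N ⧸ Subgroup.center N) :
    zForm N hc v (w * w') = zForm N hc v w + zForm N hc v w' := by
  induction v using QuotientGroup.induction_on with
  | H a =>
    induction w using QuotientGroup.induction_on with
    | H b =>
      induction w' using QuotientGroup.induction_on with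
      | H c => exact om_mul_right N hc a b c

private lemma zForm_mul_left (v v' w : N ⧸ Subgroup.center N) :
    zForm N hc (v * v') w = zForm N hc v w + zForm N hc v' w := by
  induction v using QuotientGroup.induction_on with
  | H a =>
    induction v' using QuotientGroup.induction_on with
    | H b =>
      induction w using QuotientGroup.induction_on with
      | H c => exact om_mul_left N hc a b c

end aux

theorem zset {G : Type u} [Group G] (N : Subgroup G) [hN : N.Normal]
    (hc : ∀ r ∈ N, ∀ s ∈ N, ⁅r, s⁆ ∈ Subgroup.center G)
    (he : ∀ r ∈ N, ∀ s ∈ N, ⁅r, s⁆ ^ 2 = 1) :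
    ∃ (V : Type u) (_ : AddCommGroup V) (_ : DistribMulAction G V) (π : N → V)
      (β : V →+ V →+ Additive (Subgroup.center G)),
      Function.Surjective π ∧ (∀ a b, π (a * b) = π a + π b) ∧ (∀ v : V, v + v = 0) ∧
      (∀ (g : G) a, π (cj N g a) = g • π a) ∧ (∀ a b, β (π a) (π b) = om N hc a b) ∧
      (∀ a : N, (∀ b ∈ N, ⁅(a : G), b⁆ = 1) → π a = 0) := by
  let _ : CommGroup (N ⧸ Subgroup.center N) := zComm N hc he
  let act : DistribMulAction G (Additive (N ⧸ Subgroup.center N)) :=
    { smul := fun g v => Additive.ofMul (zCj N g (Additive.toMul v))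
      one_smul := fun v => by
        change Additive.ofMul (zCj N 1 (Additive.toMul v)) = v
        apply Additive.toMul.injective
        change zCj N 1 (Additive.toMul v) = Additive.toMul v
        generalize Additive.toMul v = x
        induction x using QuotientGroup.induction_on with
        | H a =>
          rw [zCj_mk]
          congr 1
          exact Subtype.ext (by simp [cj])
      mul_smul := fun g h v => by
        change Additive.ofMul (zCj N (g * h) (Additive.toMul v)) =
          Additive.ofMul (zCj N g (zCj N h (Additive.toMul v)))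
        generalize Additive.toMul v = x
        induction x using QuotientGroup.induction_on with
        | H a =>
          rw [zCj_mk, zCj_mk, zCj_mk]
          congr 2
          exact Subtype.ext (by simp [cj, mul_assoc])
      smul_zero := fun g => by
        change Additive.ofMul (zCj N g 1) = Additive.ofMul 1
        rw [map_one]
      smul_add := fun g v w => by
        change Additive.ofMul (zCj N g (Additive.toMul v * Additive.toMul w)) =
          Additive.ofMul (zCj N g (Additive.toMul v) * zCj N g (Additive.toMul w))
        rw [map_mul] }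
  let B : Additive (N ⧸ Subgroup.center N) →+ Additive (N ⧸ Subgroup.center N) →+
      Additive (Subgroup.center G) :=
    AddMonoidHom.mk' (fun v => AddMonoidHom.mk'
      (fun w => zForm N hc (Additive.toMul v) (Additive.toMul w))
      (fun w w' => zForm_mul_right N hc _ _ _))
      (fun v v' => DFunLike.ext _ _ fun w => zForm_mul_left N hc _ _ _)
  refine ⟨Additive (N ⧸ Subgroup.center N), inferInstance, act,
    fun a => Additive.ofMul (QuotientGroup.mk a), B, ?_, ?_, ?_, ?_, ?_, ?_⟩
  · intro v
    obtain ⟨a, ha⟩ := QuotientGroup.mk_surjective (Additive.toMul v)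
    exact ⟨a, Additive.toMul.injective ha⟩
  · intro a b
    rfl
  · intro v
    apply Additive.toMul.injective
    exact zquo_sq N hc he (Additive.toMul v)
  · intro g a
    change Additive.ofMul (QuotientGroup.mk (cj N g a)) =
      Additive.ofMul (zCj N g (QuotientGroup.mk a))
    rw [zCj_mk]
  · intro a b
    rfl
  · intro a ha
    apply Additive.toMul.injective
    exact (QuotientGroup.eq_one_iff a).2
      (mem_of_om N hc a fun b => (om_eq_zero_iff N hc a b).2 (ha b b.2))

end Pool.Agent.OW
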