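import Pool.Agent.OW.Tele
import Pool.Agent.OW.Op
import Pool.Agent.OW.Kill
import Pool.Agent.OW.EL2
import Pool.Agent.OW.Zset
import Pool.Agent.Helper33.CW2.Core

/-!
# OW-Layer: one layer, `[N, N]` central of exponent 2
-/

open scoped commutatorElement

namespace Pool.Agent.OW

open Pool.Agent.Helper26.CW Pool.Agent.Helper33.CW2

attribute [local instance] centerCommGroup

universe u

private lemma ly_ev_append {G : Type*} [Group G] {k : ℕ} (x : Fin k → G)
    (W W' : List (Fin k × Bool)) : ev x (W ++ W') = ev x W * ev x W' := by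
  induction W with
  | nil => simp [ev]
  | cons p W ih =>
    obtain ⟨i, b⟩ := p
    cases b
    · rw [List.cons_append, ev, ev, ih, mul_assoc]
    · rw [List.cons_append, ev, ev, ih, mul_assoc]

private lemma ly_word {G : Type*} [Group G] {k : ℕ} (x : Fin k → G)
    (hx : Subgroup.closure (Set.range x) = ⊤) (g : G) : ∃ W, ev x W = g := by
  have hg : g ∈ Subgroup.closure (Set.range x) := hx ▸ Subgroup.mem_top g
  have key : (∃ W, ev x W = g) ∧ ∃ W, ev x W = g⁻¹ := by
    induction hg using Subgroup.closure_induction with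
    | mem y hy =>
      obtain ⟨i, rfl⟩ := hy
      exact ⟨⟨[(i, true)], by simp [ev]⟩, ⟨[(i, false)], by simp [ev]⟩⟩
    | one => exact ⟨⟨[], rfl⟩, ⟨[], by simp [ev]⟩⟩
    | mul y z _ _ hy hz =>
      obtain ⟨⟨W1, h1⟩, ⟨W2, h2⟩⟩ := hy
      obtain ⟨⟨W3, h3⟩, ⟨W4, h4⟩⟩ := hz
      exact ⟨⟨W1 ++ W3, by rw [ly_ev_append, h1, h3]⟩,
        ⟨W4 ++ W2, by rw [ly_ev_append, h2, h4, mul_inv_rev]⟩⟩
    | inv y _ hy => exact ⟨hy.2, by rw [inv_inv]; exact hy.1⟩
  exact key.1

theorem layer {G : Type u} [Group G] {k : ℕ} (x : Fin k → G)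
    (hx : Subgroup.closure (Set.range x) = ⊤) (N : Subgroup G) [hN : N.Normal]
    (hc : ∀ r ∈ N, ∀ s ∈ N, ⁅r, s⁆ ∈ Subgroup.center G)
    (he : ∀ r ∈ N, ∀ s ∈ N, ⁅r, s⁆ ^ 2 = 1) (H : Subgroup G) (hHn : H.Normal)
    (hHH : ∀ h ∈ H, ∀ h' ∈ H, ∀ n ∈ N, ∀ m ∈ N, ⁅⁅⁅h, h'⁆, n⁆, m⁆ = 1)
    (hst : ∀ h ∈ H, ∀ n ∈ N, ∃ l : List G, Odd l.length ∧ (∀ a ∈ l, a ∈ H) ∧
      ∀ m ∈ N, ⁅(l.map fun a => a * ⁅h, n⁆ * a⁻¹).prod, m⁆ = 1)
    {z : G} (hz : z ∈ ⁅N, ⁅N, H⁆⁆) : IsProdComm (3 * k) z := by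
  classical
  obtain ⟨V, _, _, π, β, hsurj, hπ, hV, hcj, hβ, hker⟩ := zset N hc he
  have h2 : ∀ u v : V, β u v + β u v = 0 := by
    intro u v
    rw [← AddMonoidHom.map_add, hV, map_zero]
  have hsym : ∀ u v : V, β u v = β v u := by
    intro u v
    obtain ⟨b, rfl⟩ := hsurj u
    obtain ⟨d, rfl⟩ := hsurj v
    have h3 := h2 (π b) (π d)
    rw [hβ] at h3
    rw [hβ, hβ, om_swap N hc d b]
    exact eq_neg_of_add_eq_zero_left h3
  have halt : ∀ v : V, β v v = 0 := by
    intro v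
    obtain ⟨b, rfl⟩ := hsurj v
    rw [hβ]
    apply om_ext
    rw [om_def, commutatorElement_self]
    rfl
  have hinv : ∀ (g : G) (u v : V), β (g • u) (g • v) = β u v := by
    intro g u v
    obtain ⟨b, rfl⟩ := hsurj u
    obtain ⟨d, rfl⟩ := hsurj v
    rw [← hcj, ← hcj, hβ, hβ, om_cj]
  have hπ1 : π 1 = 0 := by
    have h3 := hπ 1 1
    rw [mul_one] at h3
    exact left_eq_add.1 h3
  have hcm : ∀ (g : G) (u : N), ⁅g, (u : G)⁆ ∈ N := by
    intro g u
    rw [commutatorElement_def]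
    exact N.mul_mem (hN.conj_mem _ u.2 g) (N.inv_mem u.2)
  have hact : ∀ (g : G) (b : N), g • π b - π b = π ⟨⁅g, (b : G)⁆, hcm g b⟩ := by
    intro g b
    have h4 : cj N g b = ⟨⁅g, (b : G)⁆, hcm g b⟩ * b := by
      apply Subtype.ext
      change g * (b : G) * g⁻¹ = ⁅g, (b : G)⁆ * b
      rw [commutatorElement_def]
      group
    rw [← hcj, h4, hπ, add_sub_cancel_right]
  have htriv : ∀ g : G, (∀ n ∈ N, ∀ m ∈ N, ⁅⁅g, n⁆, m⁆ = 1) → ∀ v : V, g • v = v := by
    intro g hg v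
    obtain ⟨b, rfl⟩ := hsurj v
    rw [← sub_eq_zero, hact]
    exact hker _ fun m hm => hg b b.2 m hm
  have hNt : ∀ n ∈ N, ∀ v : V, n • v = v := by
    intro n hn
    refine htriv n ?_
    intro n' hn' m hm
    rw [commutatorElement_eq_one_iff_mul_comm]
    exact (comm_of_center (hc n hn n' hn') m).symm
  have hH : ∀ h ∈ H, ∀ h' ∈ H, ∀ v : V, h • h' • v = h' • h • v := by
    intro h hh h' hh' v
    have h3 : h * h' = ⁅h, h'⁆ * (h' * h) := by
      rw [commutatorElement_def]; group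
    rw [← mul_smul, h3, mul_smul, htriv _ (hHH h hh h' hh'), mul_smul]
  have hls : ∀ (l : List G) (c : N), ∃ d : N, ls l (π c) = π d ∧
      (d : G) = (l.map fun a => a * (c : G) * a⁻¹).prod := by
    intro l c
    induction l with
    | nil => exact ⟨1, by rw [hπ1]; rfl, by simp⟩
    | cons a l ih =>
      obtain ⟨d, h3, h4⟩ := ih
      refine ⟨cj N a c * d, ?_, ?_⟩
      · rw [hπ, hcj, ← h3]
        rfl
      · rw [List.map_cons, List.prod_cons, ← h4]
        rfl
  have hst' : ∀ h ∈ H, ∀ v : V, OddK H (h • v - v) := by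
    intro h hh v
    obtain ⟨b, rfl⟩ := hsurj v
    obtain ⟨l, hl1, hl2, hl3⟩ := hst h hh b b.2
    refine ⟨l, hl1, hl2, ?_⟩
    rw [hact]
    obtain ⟨d, h3, h4⟩ := hls l ⟨⁅h, (b : G)⁆, hcm h b⟩
    rw [h3]
    refine hker d fun m hm => ?_
    rw [h4]
    exact hl3 m hm
  -- the vectors of `[N, H]`
  have hNH : ⁅N, H⁆ ≤ N := Subgroup.commutator_le_left _ _
  have hcl : ∀ b : N, (b : G) ∈ ⁅N, H⁆ →
      π b ∈ AddSubgroup.closure {w : V | ∃ h ∈ H, ∃ u : V, w = h • u - u} := by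
    have key : ∀ b : G, b ∈ ⁅N, H⁆ → ∀ hb : b ∈ N,
        π ⟨b, hb⟩ ∈ AddSubgroup.closure {w : V | ∃ h ∈ H, ∃ u : V, w = h • u - u} := by
      intro b hb
      rw [Subgroup.commutator_def] at hb
      induction hb using Subgroup.closure_induction with
      | mem b hb =>
        intro hbN
        obtain ⟨n, hn, h, hh, rfl⟩ := hb
        have h3 : (1 : N) = (⟨⁅n, h⁆, hbN⟩ : N) * ⟨⁅h, n⁆, hcm h ⟨n, hn⟩⟩ := by
          apply Subtype.ext
          change (1 : G) = ⁅n, h⁆ * ⁅h, n⁆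
          rw [← commutatorElement_inv h n, inv_mul_cancel]
        have h4 := congrArg π h3
        rw [hπ, hπ1] at h4
        have h5 : π ⟨⁅h, n⁆, hcm h ⟨n, hn⟩⟩ = h • π ⟨n, hn⟩ - π ⟨n, hn⟩ := (hact h ⟨n, hn⟩).symm
        rw [h5] at h4
        rw [eq_neg_of_add_eq_zero_left h4.symm]
        exact AddSubgroup.neg_mem _ (AddSubgroup.subset_closure ⟨h, hh, _, rfl⟩)
      | one =>
        intro hb
        have h3 : (⟨1, hb⟩ : N) = 1 := rfl
        rw [h3, hπ1]
        exact AddSubgroup.zero_mem _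
      | mul b b' hb hb' ih ih' =>
        intro hbb
        have hbN : b ∈ N := hNH (by rw [Subgroup.commutator_def]; exact hb)
        have hbN' : b' ∈ N := hNH (by rw [Subgroup.commutator_def]; exact hb')
        have h3 : (⟨b * b', hbb⟩ : N) = ⟨b, hbN⟩ * ⟨b', hbN'⟩ := rfl
        rw [h3, hπ]
        exact AddSubgroup.add_mem _ (ih _) (ih' _)
      | inv b hb ih =>
        intro hbb
        have hbN : b ∈ N := hNH (by rw [Subgroup.commutator_def]; exact hb)
        have h3 := hπ ⟨b⁻¹, hbb⟩ ⟨b, hbN⟩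
        have h4 : (⟨b⁻¹, hbb⟩ : N) * ⟨b, hbN⟩ = 1 := Subtype.ext (inv_mul_cancel b)
        rw [h4, hπ1] at h3
        rw [eq_neg_of_add_eq_zero_left h3.symm]
        exact AddSubgroup.neg_mem _ (ih _)
    intro b hb
    exact key b hb b.2
  -- `z` as a sum of values of `β`
  have hz' : ∃ L : List (N × N),
      (∀ p ∈ L, π p.2 ∈ AddSubgroup.closure {w : V | ∃ h ∈ H, ∃ u : V, w = h • u - u}) ∧
      z = ((Additive.toMul (L.map fun p => β (π p.1) (π p.2)).sum : Subgroup.center G) : G) := by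
    rw [Subgroup.commutator_def] at hz
    induction hz using Subgroup.closure_induction with
    | mem b hb =>
      obtain ⟨n, hn, m, hm, rfl⟩ := hb
      refine ⟨[(⟨n, hn⟩, ⟨m, hNH hm⟩)], ?_, ?_⟩
      · intro p hp
        rw [List.mem_singleton] at hp
        rw [hp]
        exact hcl ⟨m, hNH hm⟩ hm
      · rw [List.map_cons, List.map_nil, List.sum_cons, List.sum_nil, add_zero, hβ, om_def]
    | one => exact ⟨[], by simp, rfl⟩
    | mul b b' _ _ ih ih' =>
      obtain ⟨L, h3, h4⟩ := ih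
      obtain ⟨L', h3', h4'⟩ := ih'
      refine ⟨L ++ L', ?_, ?_⟩
      · intro p hp
        rcases List.mem_append.1 hp with hp | hp
        · exact h3 p hp
        · exact h3' p hp
      · rw [List.map_append, List.sum_append, Pool.Agent.Helper26.CW.toMul_add, ← h4, ← h4']
    | inv b _ ih =>
      obtain ⟨L, h3, h4⟩ := ih
      refine ⟨L, h3, ?_⟩
      have h5 : ∀ L : List (N × N), (L.map fun p => β (π p.1) (π p.2)).sum +
          (L.map fun p => β (π p.1) (π p.2)).sum = 0 := by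
        intro L
        induction L with
        | nil => simp
        | cons p L ih =>
          rw [List.map_cons, List.sum_cons, add_add_add_comm, h2, ih, add_zero]
      have h6 := congrArg (fun t => ((Additive.toMul t : Subgroup.center G) : G)) (h5 L)
      rw [Pool.Agent.Helper26.CW.toMul_add, Pool.Agent.Helper26.CW.toMul_zero, ← h4] at h6
      rw [← h4]
      exact inv_eq_of_mul_eq_one_left h6
  obtain ⟨L, hL1, rfl⟩ := hz'
  choose wd hwd using fun n : N => ly_word x hx (n : G)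
  -- one list which kills all the relevant vectors
  obtain ⟨l, hl1, hl2, hl3⟩ := kill_fin hV H hH hst'
    (L.flatMap fun p => (wd p.1).tails.map fun W' => ev x W' • π p.2) (by
      intro v hv
      rw [List.mem_flatMap] at hv
      obtain ⟨p, hp, hv⟩ := hv
      obtain ⟨W', -, rfl⟩ := List.mem_map.1 hv
      exact smul_mem_cl H hHn _ (hL1 p hp))
  have M : Mdl G β (yo l) (yo' l) := op_mdl hV hsym halt hinv H hHn hH l hl2
  obtain ⟨hT1, hT2⟩ := tel_list x M (L.map fun p => (wd p.1, π p.2)) (by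
      intro z hz v
      obtain ⟨p, hp, rfl⟩ := List.mem_map.1 hz
      change ev x (wd p.1) • v = v
      rw [hwd]
      exact hNt _ p.1.2 v) (by
      intro z hz W' hW'
      obtain ⟨p, hp, rfl⟩ := List.mem_map.1 hz
      refine op_good hV l hl1 (hl3 _ ?_)
      rw [List.mem_flatMap]
      exact ⟨p, hp, List.mem_map.2 ⟨W', (List.mem_tails _ _).2 hW', rfl⟩⟩)
  have hE := el2 x N hc he π β hπ hV hcj hβ (L.map fun p => (wd p.1, p.1, p.2)) (by
      intro z hz
      obtain ⟨p, hp, rfl⟩ := List.mem_map.1 hz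
      exact hwd p.1)
  have hV2 := coll_val x M _ hT2
  simp only [List.flatMap_map, List.map_map, Function.comp_def] at hT1 hV2 hE
  obtain ⟨a, b, a', b', hV3⟩ := hV2
  obtain ⟨P, hP⟩ : ∃ P, P = L.flatMap fun z => (lets x (wd z.1)).map fun p => (p.1, p.2 • π z.2) :=
    ⟨_, rfl⟩
  rw [← hP] at hT1 hV3 hE
  rw [← hT1, add_assoc, hV3] at hE
  obtain ⟨c, hcdef⟩ : ∃ c, c = ∑ i, β (a i) (b i) + ∑ i, β (a' i) (b' i) := ⟨_, rfl⟩
  have hcc : c + c = 0 := by
    have h3 : ∀ f g : Fin k → V, (∑ i, β (f i) (g i)) + (∑ i, β (f i) (g i)) = 0 := by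
      intro f g
      rw [← Finset.sum_add_distrib]
      exact Finset.sum_eq_zero fun i _ => h2 _ _
    rw [hcdef, add_add_add_comm, h3, h3, add_zero]
  have hone : ∀ u v : V, IsProdComm 1 ((Additive.toMul (β u v) : Subgroup.center G) : G) := by
    intro u v
    obtain ⟨r, rfl⟩ := hsurj u
    obtain ⟨s, rfl⟩ := hsurj v
    rw [hβ, om_def]
    exact isProdComm_comm _ _
  have hcp : IsProdComm (k + k) ((Additive.toMul c : Subgroup.center G) : G) := by
    rw [hcdef, Pool.Agent.Helper26.CW.toMul_add]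
    have h4 : ∀ f g : Fin k → V, IsProdComm k
        ((Additive.toMul (∑ i, β (f i) (g i)) : Subgroup.center G) : G) := by
      intro f g
      have h5 := isProdComm_sum (k := 1) (Finset.univ : Finset (Fin k))
        (fun i => β (f i) (g i)) (fun i _ => hone _ _)
      rwa [Finset.card_univ, Fintype.card_fin, mul_one] at h5
    exact (h4 a b).mul (h4 a' b')
  rw [← hcdef] at hE
  obtain ⟨s, hs⟩ : ∃ s, s = (L.map fun p => β (π p.1) (π p.2)).sum := ⟨_, rfl⟩
  rw [← hs] at hE ⊢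
  have h5 : s = (s + c) + c := by rw [add_assoc, hcc, add_zero]
  rw [h5, Pool.Agent.Helper26.CW.toMul_add]
  refine (hE.mul hcp).mono (le_of_eq ?_)
  ring

end Pool.Agent.OW
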