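import Pool.Agent.Helper17.CW.Final

/-!
# OW-Start: the first step
-/

open scoped commutatorElement

namespace Pool.Agent.OW

open Pool.Agent.Helper26.CW Pool.Agent.Helper17.CW

universe u

private theorem three_le {G : Type u} [Group G] (N : Subgroup G) [hN : N.Normal]
    (hN2 : N ≤ ⁅commutator G, commutator G⁆) :
    ⁅N, N⁆ ≤ ⁅⁅N, commutator G⁆, (⊤ : Subgroup G)⁆ := by
  have hD : (commutator G).Normal := inferInstance
  set D := commutator G with hDdef
  have hM : (⁅N, D⁆).Normal := inferInstance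
  set K := ⁅⁅N, D⁆, D⁆ with hK
  have hKn : K.Normal := by rw [hK]; infer_instance
  have h1 : ⁅⁅N.map (QuotientGroup.mk' K), D.map (QuotientGroup.mk' K)⁆,
      D.map (QuotientGroup.mk' K)⁆ = ⊥ := by
    rw [← Subgroup.map_commutator, ← Subgroup.map_commutator, ← hK, QuotientGroup.map_mk'_self]
  have h2 : ⁅⁅D.map (QuotientGroup.mk' K), N.map (QuotientGroup.mk' K)⁆,
      D.map (QuotientGroup.mk' K)⁆ = ⊥ := by
    rw [Subgroup.commutator_comm (D.map (QuotientGroup.mk' K)) (N.map (QuotientGroup.mk' K))]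
    exact h1
  have h3 := Subgroup.commutator_commutator_eq_bot_of_rotate
    (H₁ := D.map (QuotientGroup.mk' K)) (H₂ := D.map (QuotientGroup.mk' K))
    (H₃ := N.map (QuotientGroup.mk' K)) h2 h1
  rw [← Subgroup.map_commutator, ← Subgroup.map_commutator] at h3
  have h4 : ⁅⁅D, D⁆, N⁆ ≤ K := by
    intro x hx
    have : QuotientGroup.mk' K x ∈ (⁅⁅D, D⁆, N⁆).map (QuotientGroup.mk' K) := ⟨x, hx, rfl⟩
    rw [h3, Subgroup.mem_bot] at this
    exact (QuotientGroup.eq_one_iff x).1 this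
  calc ⁅N, N⁆ ≤ ⁅⁅D, D⁆, N⁆ := Subgroup.commutator_mono hN2 le_rfl
    _ ≤ K := h4
    _ ≤ ⁅⁅N, D⁆, (⊤ : Subgroup G)⁆ := Subgroup.commutator_mono le_rfl le_top

theorem start {G : Type u} [Group G] (ys : List G)
    (hgen : Subgroup.closure {y | y ∈ ys} = ⊤) (N : Subgroup G) [hN : N.Normal]
    (hN2 : N ≤ ⁅commutator G, commutator G⁆) {z : G} (hz : z ∈ ⁅N, N⁆) :
    ∃ p q : G, IsProdComm ys.length p ∧ q ∈ ⁅N, ⁅N, commutator G⁆⁆ ∧ z = p * q := by
  have hD : (commutator G).Normal := inferInstance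
  have hMn : (⁅N, commutator G⁆).Normal := inferInstance
  set M := ⁅N, commutator G⁆ with hM
  set Z := ⁅N, M⁆ with hZ
  have hZn : Z.Normal := by rw [hZ]; infer_instance
  have hMN : M ≤ N := Subgroup.commutator_le_left _ _
  have hM'n : (M.map (QuotientGroup.mk' Z)).Normal :=
    hMn.map _ (QuotientGroup.mk'_surjective Z)
  have habel : ∀ r ∈ M.map (QuotientGroup.mk' Z), ∀ s ∈ M.map (QuotientGroup.mk' Z),
      r * s = s * r := by
    rintro _ ⟨r, hr, rfl⟩ _ ⟨s, hs, rfl⟩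
    have h1 : ⁅r, s⁆ ∈ Z := Subgroup.commutator_mem_commutator (hMN hr) hs
    have h2 : QuotientGroup.mk' Z ⁅r, s⁆ = 1 := (QuotientGroup.eq_one_iff _).2 h1
    rw [map_commutatorElement, commutatorElement_eq_one_iff_mul_comm] at h2
    exact h2
  have hz' : (QuotientGroup.mk z : G ⧸ Z) ∈
      ⁅M.map (QuotientGroup.mk' Z), (⊤ : Subgroup (G ⧸ Z))⁆ := by
    have h1 : z ∈ ⁅M, (⊤ : Subgroup G)⁆ := three_le N hN2 hz
    have h2 : QuotientGroup.mk' Z z ∈ (⁅M, (⊤ : Subgroup G)⁆).map (QuotientGroup.mk' Z) :=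
      ⟨z, h1, rfl⟩
    rw [Subgroup.map_commutator,
      Subgroup.map_top_of_surjective _ (QuotientGroup.mk'_surjective Z)] at h2
    exact h2
  have hcl : Subgroup.closure {y | y ∈ ys.map (QuotientGroup.mk' Z)} = ⊤ := by
    have : {y | y ∈ ys.map (QuotientGroup.mk' Z)} = (QuotientGroup.mk' Z) '' {y | y ∈ ys} := by
      ext x; simp
    rw [this, ← MonoidHom.map_closure, hgen,
      Subgroup.map_top_of_surjective _ (QuotientGroup.mk'_surjective Z)]
  have h := isProdComm_of_mem_commutator_top (M.map (QuotientGroup.mk' Z))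
    (ys.map (QuotientGroup.mk' Z)) hcl (by
      intro r hr g s hs
      refine habel _ ?_ s hs
      rw [commutatorElement_def, mul_assoc, mul_assoc]
      refine (M.map (QuotientGroup.mk' Z)).mul_mem hr ?_
      rw [← mul_assoc]
      exact hM'n.conj_mem _ ((M.map (QuotientGroup.mk' Z)).inv_mem hr) g) hz'
  rw [List.length_map] at h
  obtain ⟨c, a, hc, ha, hca⟩ := exists_of_quotient Z h
  exact ⟨c, a, hc, ha, hca⟩

end Pool.Agent.OW
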