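import Pool.Agent.OW.Chain
import Pool.Agent.OW.Start
import Pool.Agent.Helper33.CW2.Main

/-!
# OW-Main: induction on the derived length
-/

open scoped commutatorElement

namespace Pool.Agent.OW

open Pool.Agent.Helper26.CW Pool.Agent.Helper17.CW Pool.Agent.Helper33.CW2

universe u

/-- The hypothesis on the pairs of terms of the derived series. -/
def Hyp (G : Type u) [Group G] (d : ℕ) : Prop :=
  ∀ i j, 1 ≤ j → j < i → i + 2 ≤ d → ∀ h ∈ derivedSeries G j, ∀ n ∈ derivedSeries G i,
    ∃ l : List G, Odd l.length ∧ (∀ a ∈ l, a ∈ derivedSeries G j) ∧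
      (l.map fun a => a * ⁅h, n⁆ * a⁻¹).prod ∈
        SQ (derivedSeries G i) ⊔ ⁅derivedSeries G i, derivedSeries G (j + 1)⁆

lemma Hyp.mono {G : Type u} [Group G] {d e : ℕ} (h : Hyp G d) (he : e ≤ d) : Hyp G e :=
  fun i j h1 h2 h3 => h i j h1 h2 (h3.trans he)

lemma Hyp.map {G K : Type u} [Group G] [Group K] {d : ℕ} (h : Hyp G d) (f : G →* K)
    (hf : Function.Surjective f) : Hyp K d := by
  intro i j h1 h2 h3 y hy n hn
  rw [← map_derivedSeries_eq hf] at hy hn
  obtain ⟨y, hy, rfl⟩ := hy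
  obtain ⟨n, hn, rfl⟩ := hn
  obtain ⟨l, hl1, hl2, hl3⟩ := h i j h1 h2 h3 y hy n hn
  refine ⟨l.map f, by rwa [List.length_map], ?_, ?_⟩
  · intro a ha
    obtain ⟨b, hb, rfl⟩ := List.mem_map.1 ha
    rw [← map_derivedSeries_eq hf]
    exact ⟨b, hl2 b hb, rfl⟩
  · have h4 : ((l.map f).map fun a => a * ⁅f y, f n⁆ * a⁻¹).prod =
        f (l.map fun a => a * ⁅y, n⁆ * a⁻¹).prod := by
      rw [map_list_prod, List.map_map, List.map_map]
      congr 1
      apply List.map_congr_left
      intro a _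
      simp only [Function.comp, map_mul, map_inv, map_commutatorElement]
    rw [h4, ← map_derivedSeries_eq hf i, ← map_derivedSeries_eq hf (j + 1), ← SQ_map,
      ← Subgroup.map_commutator, ← Subgroup.map_sup]
    exact ⟨_, hl3, rfl⟩

/-- The case in which `G^(d+3)` is central of exponent 2. -/
theorem cen2 (k d : ℕ) {G : Type u} [Group G] (x : Fin k → G)
    (hx : Subgroup.closure (Set.range x) = ⊤)
    (hcen : derivedSeries G (d + 3) ≤ Subgroup.center G)
    (hsq : ∀ z ∈ derivedSeries G (d + 3), z ^ 2 = 1) (hyp : Hyp G (d + 4)) {z : G}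
    (hz : z ∈ derivedSeries G (d + 3)) : IsProdComm (k + (d + 1) * (3 * k)) z := by
  have hNn : (derivedSeries G (d + 2)).Normal := derivedSeries_normal G (d + 2)
  have hNN : ⁅derivedSeries G (d + 2), derivedSeries G (d + 2)⁆ = derivedSeries G (d + 3) :=
    (derivedSeries_succ G (d + 2)).symm
  have hc : ∀ r ∈ derivedSeries G (d + 2), ∀ s ∈ derivedSeries G (d + 2),
      ⁅r, s⁆ ∈ Subgroup.center G := fun r hr s hs =>
    hcen (hNN ▸ Subgroup.commutator_mem_commutator hr hs)
  have he : ∀ r ∈ derivedSeries G (d + 2), ∀ s ∈ derivedSeries G (d + 2), ⁅r, s⁆ ^ 2 = 1 :=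
    fun r hr s hs => hsq _ (hNN ▸ Subgroup.commutator_mem_commutator hr hs)
  have hN2 : derivedSeries G (d + 2) ≤ ⁅commutator G, commutator G⁆ := by
    rw [← derivedSeries_one, ← derivedSeries_succ]
    exact derivedSeries_antitone G (by omega)
  obtain ⟨p, q, hp, hq, rfl⟩ := start (List.ofFn x) (ofFn_top x hx) (derivedSeries G (d + 2)) hN2
    (z := z) (by rw [hNN]; exact hz)
  rw [List.length_ofFn] at hp
  refine hp.mul ?_
  refine chain x hx (derivedSeries G (d + 2)) hc he (d + 1) (fun j => derivedSeries G (j + 1))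
    (fun j => derivedSeries_normal G (j + 1)) ?_ ?_ ?_ (by rwa [← derivedSeries_one] at hq)
  · intro j _
    exact le_of_eq (derivedSeries_succ G (j + 1)).symm
  · intro j hj h hh n hn
    exact hyp (d + 2) (j + 1) (by omega) (by omega) (by omega) h hh n hn
  · change ⁅derivedSeries G (d + 2), ⁅derivedSeries G (d + 2), derivedSeries G (d + 2)⁆⁆ = ⊥
    rw [hNN, eq_bot_iff, Subgroup.commutator_le]
    intro g _ c hcc
    rw [Subgroup.mem_bot, commutatorElement_eq_one_iff_mul_comm]
    exact Subgroup.mem_center_iff.1 (hcen hcc) g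

/-- The case in which `G^(d+3)` is central. -/
theorem cen (k d : ℕ) {G : Type u} [Group G] (x : Fin k → G)
    (hx : Subgroup.closure (Set.range x) = ⊤)
    (hcen : derivedSeries G (d + 3) ≤ Subgroup.center G) (hyp : Hyp G (d + 4)) {z : G}
    (hz : z ∈ derivedSeries G (d + 3)) : IsProdComm (3 * k + (d + 1) * (3 * k)) z := by
  have hNN : ⁅derivedSeries G (d + 2), derivedSeries G (d + 2)⁆ = derivedSeries G (d + 3) :=
    (derivedSeries_succ G (d + 2)).symm
  have hNn : (derivedSeries G (d + 2)).Normal := derivedSeries_normal G (d + 2)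
  -- the subgroup of squares
  let B : Subgroup G :=
    { carrier := {y | ∃ b ∈ derivedSeries G (d + 3), y = b ^ 2}
      mul_mem' := by
        rintro _ _ ⟨b, hb, rfl⟩ ⟨c, hc, rfl⟩
        refine ⟨b * c, mul_mem hb hc, ?_⟩
        have h1 : Commute b c := (Subgroup.mem_center_iff.1 (hcen hc) b)
        exact (h1.mul_pow 2).symm
      one_mem' := ⟨1, one_mem _, by simp⟩
      inv_mem' := by
        rintro _ ⟨b, hb, rfl⟩
        exact ⟨b⁻¹, inv_mem hb, by simp⟩ }
  have hBN : B.Normal := by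
    constructor
    rintro _ ⟨b, hb, rfl⟩ g
    refine ⟨b, hb, ?_⟩
    have h1 : g * b = b * g := Subgroup.mem_center_iff.1 (hcen hb) g
    have h2 : g * b ^ 2 = b ^ 2 * g := (Commute.pow_right (show Commute g b from h1) 2)
    rw [h2, mul_inv_cancel_right]
  have hsur := QuotientGroup.mk'_surjective B
  have h1 := cen2 k d (fun i => QuotientGroup.mk' B (x i)) (range_map_top _ hsur x hx) ?_ ?_
    (hyp.map _ hsur) (z := QuotientGroup.mk' B z) ?_
  · obtain ⟨p, b, hp, ⟨y, hy, rfl⟩, rfl⟩ := exists_of_quotient B h1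
    have h2 := isProdComm_sq (derivedSeries G (d + 2))
      (fun r hr s hs => hcen (hNN ▸ Subgroup.commutator_mem_commutator hr hs))
      (List.ofFn x) (ofFn_top x hx) (z := y) (by rw [hNN]; exact hy)
    rw [List.length_ofFn] at h2
    refine (hp.mul h2).mono (le_of_eq ?_)
    ring
  · rw [← map_derivedSeries_eq hsur]
    rintro _ ⟨a, ha, rfl⟩
    rw [Subgroup.mem_center_iff]
    intro g
    obtain ⟨g, rfl⟩ := hsur g
    rw [← map_mul, ← map_mul, Subgroup.mem_center_iff.1 (hcen ha) g]
  · rw [← map_derivedSeries_eq hsur]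
    rintro _ ⟨a, ha, rfl⟩
    rw [← map_pow]
    exact (QuotientGroup.eq_one_iff _).2 ⟨a, ha, rfl⟩
  · rw [← map_derivedSeries_eq hsur]
    exact ⟨z, hz, rfl⟩

/-- One step: the last term of the derived series. -/
theorem step (k d : ℕ) {G : Type u} [Group G] (x : Fin k → G)
    (hx : Subgroup.closure (Set.range x) = ⊤) (hd : derivedSeries G (d + 4) = ⊥)
    (hyp : Hyp G (d + 4)) {a : G} (ha : a ∈ derivedSeries G (d + 3)) :
    IsProdComm (4 * k + (d + 1) * (3 * k)) a := by
  have hAn : (derivedSeries G (d + 3)).Normal := derivedSeries_normal G (d + 3)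
  have hAA : ⁅derivedSeries G (d + 3), derivedSeries G (d + 3)⁆ = ⊥ := by
    rw [← derivedSeries_succ]; exact hd
  have hsur := QuotientGroup.mk'_surjective ⁅derivedSeries G (d + 3), (⊤ : Subgroup G)⁆
  have h1 := cen k d (G := G ⧸ ⁅derivedSeries G (d + 3), (⊤ : Subgroup G)⁆)
    (fun i => QuotientGroup.mk' _ (x i)) (range_map_top _ hsur x hx) ?_ (hyp.map _ hsur)
    (z := QuotientGroup.mk' _ a) ?_
  · have h2 := lift_center (derivedSeries G (d + 3)) (comm_of_commutator_eq_bot hAA) (List.ofFn x)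
      (ofFn_top x hx) h1
    rw [List.length_ofFn] at h2
    refine h2.mono (le_of_eq ?_)
    ring
  · rw [← map_derivedSeries_eq hsur]
    rintro _ ⟨b, hb, rfl⟩
    exact mk_central _ hb
  · rw [← map_derivedSeries_eq hsur]
    exact ⟨a, ha, rfl⟩

theorem main (k : ℕ) (d : ℕ) : ∀ (G : Type u) [Group G] (x : Fin k → G),
    Subgroup.closure (Set.range x) = ⊤ → derivedSeries G (d + 3) = ⊥ → Hyp G (d + 3) →
    ∀ g ∈ commutator G,
      IsProdComm (k ^ 2 + 2 * k + 4 * k * d + 3 * k * (d * (d + 1) / 2)) g := by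
  induction d with
  | zero =>
    intro G _ x hx hd _ g hg
    have h1 := width_ana (List.ofFn x) (ofFn_top x hx) 1 ?_ (g := g)
      (by rw [derivedSeries_one]; exact hg)
    · rw [List.length_ofFn] at h1
      refine h1.mono (le_of_eq ?_)
      simp
    · change ⁅⁅derivedSeries G 1, derivedSeries G 1⁆, ⁅derivedSeries G 1, derivedSeries G 1⁆⁆ = ⊥
      rw [← derivedSeries_succ, ← derivedSeries_succ]
      exact hd
  | succ d ih =>
    intro G _ x hx hd hyp g hg
    have hAn : (derivedSeries G (d + 3)).Normal := derivedSeries_normal G (d + 3)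
    have hsur := QuotientGroup.mk'_surjective (derivedSeries G (d + 3))
    have h1 := ih (G ⧸ derivedSeries G (d + 3)) (fun i => QuotientGroup.mk' _ (x i))
      (range_map_top _ hsur x hx) ?_ ((hyp.mono (by omega)).map _ hsur) (QuotientGroup.mk' _ g) ?_
    · obtain ⟨p, a, hp, ha, rfl⟩ := exists_of_quotient _ h1
      refine (hp.mul (step k d x hx hd hyp ha)).mono (le_of_eq ?_)
      have h2 : (d + 1) * (d + 1 + 1) / 2 = d * (d + 1) / 2 + (d + 1) := by
        have h3 : (d + 1) * (d + 1 + 1) = d * (d + 1) + (d + 1) * 2 := by ring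
        rw [h3, Nat.add_mul_div_right _ _ (by norm_num)]
      rw [h2]
      ring
    · rw [← map_derivedSeries_eq hsur, QuotientGroup.map_mk'_self]
    · rw [← derivedSeries_one, ← map_derivedSeries_eq hsur, derivedSeries_one]
      exact ⟨g, hg, rfl⟩

end Pool.Agent.OW
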