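import Pool.Agent.OW.Coll

/-!
# OW-Tele: the commutator of a word in the model

PLAN. `dl_lets`, `good_lets`: induction on the word (for the letter `(i, false)`, `v = (x i)⁻¹ • w u`,
`x i • v - v = w u - v = v - w u` up to sign: `-v = v` (`M.neg`)).
`tel`: induction on `W`. Put `w = ev x W`, `Φ a b = β (y a) b`.
(true) the new letter is `(i, w u)`; `yv (i, w u) + Φ(x i w u - w u, w u - u) + [Φ(w u - u, u) + ρ_w u]`
with `yv (i, w u) = Φ(x i w u - w u, w u) + ρ_(x i) (w u)`: the sum is `Φ(x i w u - u, u) +
ρ_(x i) (w u) + ρ_w u` and `R2` applies.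
(false) the new letter is `(i, v)`, `v = (x i)⁻¹ w u`, `negs` gives `β v (x i v)`. The sum is
`Φ(x i v, v) + Φ(v, v) + ρ_(x i) v + Φ(x i v - v, x i v - u) + β v (x i v) + Φ(x i v - u, u) + ρ_w u`;
by `R1` `Φ(x i v, v) + Φ(v, x i v) + β v (x i v) = 0`, by `R4` `Φ(v, v) = Φ(x i v, x i v)`, and `R2`
gives `ρ_w u = ρ_(x i) v + ρ_((x i)⁻¹ w) u`. There remains `Φ(v - u, u) + ρ_((x i)⁻¹ w) u`.
`tel_list`: induction on the list with `ccl_append` and `tel`; since `ev x W • u = u` the cross terms
`β (y (ev x W • u - u)) _` vanish, and `rho β y' n u = β (y' u) (y' u) = 0` when `n` acts trivially on `V`.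
-/

namespace Pool.Agent.OW

open Pool.Agent.Helper33.CW2

variable {G V A : Type*} [Group G] [AddCommGroup V] [DistribMulAction G V] [AddCommGroup A]
  {β : V →+ V →+ A} {y y' : V →+ V} {k : ℕ} (x : Fin k → G)

private theorem lets_true (i : Fin k) (W : List (Fin k × Bool)) :
    lets x ((i, true) :: W) = (i, ev x W) :: lets x W := rfl

private theorem lets_false (i : Fin k) (W : List (Fin k × Bool)) :
    lets x ((i, false) :: W) = (i, (x i)⁻¹ * ev x W) :: lets x W := rfl

private theorem ev_true (i : Fin k) (W : List (Fin k × Bool)) :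
    ev x ((i, true) :: W) = x i * ev x W := rfl

private theorem ev_false (i : Fin k) (W : List (Fin k × Bool)) :
    ev x ((i, false) :: W) = (x i)⁻¹ * ev x W := rfl

private theorem negs_true (i : Fin k) (W : List (Fin k × Bool)) :
    negs x ((i, true) :: W) = negs x W := rfl

private theorem negs_false (i : Fin k) (W : List (Fin k × Bool)) :
    negs x ((i, false) :: W) = ((x i)⁻¹ * ev x W, ev x W) :: negs x W := rfl

private theorem ccl_cons' (p : Fin k × V) (P : List (Fin k × V)) :
    ccl x β y y' (p :: P) =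
      yv x β y y' p + β (y (dl x p)) (P.map (dl x)).sum + ccl x β y y' P := rfl

theorem dl_lets (hV : ∀ v : V, v + v = 0) (W : List (Fin k × Bool)) (u : V) :
    (((lets x W).map fun p => (p.1, p.2 • u)).map (dl x)).sum = ev x W • u - u := by
  induction W with
  | nil =>
    show (0 : V) = (1 : G) • u - u
    rw [one_smul, sub_self]
  | cons q W ih =>
    obtain ⟨i, b⟩ := q
    cases b with
    | true =>
      rw [lets_true, List.map_cons, List.map_cons, List.sum_cons, ih, ev_true]
      show (x i • ev x W • u - ev x W • u) + (ev x W • u - u) = (x i * ev x W) • u - u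
      rw [mul_smul]
      abel
    | false =>
      rw [lets_false, List.map_cons, List.map_cons, List.sum_cons, ih, ev_false]
      show (x i • ((x i)⁻¹ * ev x W) • u - ((x i)⁻¹ * ev x W) • u) + (ev x W • u - u) =
        ((x i)⁻¹ * ev x W) • u - u
      rw [← mul_smul, mul_inv_cancel_left]
      have h1 := hV (ev x W • u)
      have h2 := hV (((x i)⁻¹ * ev x W) • u)
      rw [← sub_eq_zero]
      have h3 : ev x W • u - ((x i)⁻¹ * ev x W) • u + (ev x W • u - u) -
          (((x i)⁻¹ * ev x W) • u - u) = (ev x W • u + ev x W • u) -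
          (((x i)⁻¹ * ev x W) • u + ((x i)⁻¹ * ev x W) • u) := by abel
      rw [h3, h1, h2, sub_zero]

theorem good_lets (W : List (Fin k × Bool)) (u : V)
    (hW : ∀ W', W' <:+ W → Gd y y' (ev x W' • u)) :
    AllGd x y y' ((lets x W).map fun p => (p.1, p.2 • u)) := by
  induction W with
  | nil =>
    intro p hp
    exact absurd hp (by simp [lets])
  | cons q W ih =>
    obtain ⟨i, b⟩ := q
    have h0 : Gd y y' (ev x W • u) := hW W (List.suffix_cons _ _)
    have h1 := ih fun W' h => hW W' (h.trans (List.suffix_cons _ _))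
    cases b with
    | true =>
      have h2 : Gd y y' (ev x ((i, true) :: W) • u) := hW _ (List.suffix_refl _)
      rw [ev_true, mul_smul] at h2
      rw [lets_true, List.map_cons]
      intro p hp
      rcases List.mem_cons.1 hp with h | h
      · rw [h]
        exact ⟨h0, h2⟩
      · exact h1 p h
    | false =>
      have h2 : Gd y y' (ev x ((i, false) :: W) • u) := hW _ (List.suffix_refl _)
      rw [ev_false] at h2
      rw [lets_false, List.map_cons]
      intro p hp
      rcases List.mem_cons.1 hp with h | h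
      · rw [h]
        refine ⟨h2, ?_⟩
        show Gd y y' (x i • ((x i)⁻¹ * ev x W) • u)
        rw [← mul_smul, mul_inv_cancel_left]
        exact h0
      · exact h1 p h

private theorem rho_triv (M : Mdl G β y y') (n : G) (hn : ∀ v : V, n • v = v) (u : V) :
    rho β y' n u = 0 := by
  unfold rho
  rw [hn, hn]
  exact M.alt _

private theorem bneg (M : Mdl G β y y') (u v : V) : -(β u v) = β u v :=
  neg_eq_of_add_eq_zero_left (M.b2 u v)

theorem tel (M : Mdl G β y y') (W : List (Fin k × Bool)) (u : V)
    (hW : ∀ W', W' <:+ W → Gd y y' (ev x W' • u)) :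
    ccl x β y y' ((lets x W).map fun p => (p.1, p.2 • u)) +
      ((negs x W).map fun p => β (p.1 • u) (p.2 • u)).sum =
      β (y (ev x W • u - u)) u + rho β y' (ev x W) u := by
  have hu : Gd y y' u := by
    have h := hW [] (List.nil_suffix)
    have h1 : ev x ([] : List (Fin k × Bool)) = (1 : G) := rfl
    rw [h1, one_smul] at h
    exact h
  induction W with
  | nil =>
    have h1 : ev x ([] : List (Fin k × Bool)) = (1 : G) := rfl
    rw [h1, rho_triv M 1 (fun v => one_smul G v) u, one_smul, sub_self, map_zero, map_zero,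
      AddMonoidHom.zero_apply, add_zero]
    show (0 : A) + 0 = 0
    rw [add_zero]
  | cons q W ih =>
    obtain ⟨i, b⟩ := q
    have h0 : Gd y y' (ev x W • u) := hW W (List.suffix_cons _ _)
    have ih' := ih fun W' h => hW W' (h.trans (List.suffix_cons _ _))
    have hd := dl_lets x M.two W u
    cases b with
    | true =>
      have h2 : Gd y y' (ev x ((i, true) :: W) • u) := hW _ (List.suffix_refl _)
      rw [ev_true] at h2
      have hR := R2 M (x i) (ev x W) hu h0 h2
      rw [lets_true, List.map_cons, ccl_cons', hd, negs_true, ev_true, hR]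
      have h3 : yv x β y y' (i, ev x W • u) =
        β (y (x i • ev x W • u - ev x W • u)) (ev x W • u) + rho β y' (x i) (ev x W • u) := rfl
      have h4 : dl x (i, ev x W • u) = x i • ev x W • u - ev x W • u := rfl
      rw [add_assoc, ih', h3, h4, mul_smul]
      obtain ⟨B, hB⟩ : ∃ B : V, B = ev x W • u := ⟨_, rfl⟩
      obtain ⟨C, hC⟩ : ∃ C : V, C = x i • B := ⟨_, rfl⟩
      rw [← hB, ← hC]
      have e1 := M.b2 (y C) B
      have e2 := M.b2 (y B) B
      have e3 := M.b2 (y B) u
      have e4 := M.b2 (y C) u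
      simp only [map_sub, AddMonoidHom.sub_apply]
      rw [← sub_eq_zero]
      have h5 : β (y C) B - β (y B) B + rho β y' (x i) B +
          (β (y C) B - β (y B) B - (β (y C) u - β (y B) u)) +
          (β (y B) u - β (y u) u + rho β y' (ev x W) u) -
          (β (y C) u - β (y u) u + (rho β y' (x i) B + rho β y' (ev x W) u)) =
          (β (y C) B + β (y C) B) - (β (y B) B + β (y B) B) + (β (y B) u + β (y B) u) -
          (β (y C) u + β (y C) u) := by abel
      rw [h5, e1, e2, e3, e4]
      simp
    | false =>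
      have h2 : Gd y y' (ev x ((i, false) :: W) • u) := hW _ (List.suffix_refl _)
      rw [ev_false] at h2
      have h6 : x i • ((x i)⁻¹ * ev x W) • u = ev x W • u := by
        rw [← mul_smul, mul_inv_cancel_left]
      have h7 : Gd y y' ((x i * ((x i)⁻¹ * ev x W)) • u) := by
        rw [mul_inv_cancel_left]
        exact h0
      have hR := R2 M (x i) ((x i)⁻¹ * ev x W) hu h2 h7
      rw [mul_inv_cancel_left] at hR
      rw [hR] at ih'
      rw [lets_false, List.map_cons, ccl_cons', hd, negs_false, List.map_cons, List.sum_cons,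
        ev_false]
      have h3 : yv x β y y' (i, ((x i)⁻¹ * ev x W) • u) =
        β (y (x i • ((x i)⁻¹ * ev x W) • u - ((x i)⁻¹ * ev x W) • u)) (((x i)⁻¹ * ev x W) • u) +
          rho β y' (x i) (((x i)⁻¹ * ev x W) • u) := rfl
      have h4 : dl x (i, ((x i)⁻¹ * ev x W) • u) =
        x i • ((x i)⁻¹ * ev x W) • u - ((x i)⁻¹ * ev x W) • u := rfl
      rw [h3, h4, h6]
      have r1 := R1 M h2 (ev x W • u)
      have r4 := R4 M (x i) h2 (by rw [h6]; exact h0)
      rw [h6] at r4
      obtain ⟨B, hB⟩ : ∃ B : V, B = ev x W • u := ⟨_, rfl⟩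
      obtain ⟨C, hC⟩ : ∃ C : V, C = ((x i)⁻¹ * ev x W) • u := ⟨_, rfl⟩
      rw [← hB, ← hC] at r1 r4 ih' ⊢
      obtain ⟨S, hS⟩ : ∃ S : A, S = ccl x β y y' ((lets x W).map fun p => (p.1, p.2 • u)) :=
        ⟨_, rfl⟩
      obtain ⟨T, hT⟩ : ∃ T : A, T = ((negs x W).map fun p => β (p.1 • u) (p.2 • u)).sum :=
        ⟨_, rfl⟩
      rw [← hS, ← hT] at ih' ⊢
      have e1 : rho β y' (x i) C + rho β y' (x i) C = 0 := M.b2 _ _
      have e2 := M.b2 (y B) C
      have e3 := M.b2 (y C) B
      have h8 : β (y (B - C)) C + rho β y' (x i) C + β (y (B - C)) (B - u) + S +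
          (β C B + T) = β (y (B - C)) C + rho β y' (x i) C + β (y (B - C)) (B - u) +
          β C B + (S + T) := by abel
      rw [h8, ih', ← r1]
      simp only [map_sub, AddMonoidHom.sub_apply]
      rw [r4, ← sub_eq_zero]
      have h9 : β (y B) C - β (y C) C + rho β y' (x i) C +
          (β (y C) C - β (y C) B - (β (y B) u - β (y C) u)) +
          (β (y C) B + β (y B) C) +
          (β (y B) u - β (y u) u + (rho β y' (x i) C + rho β y' ((x i)⁻¹ * ev x W) u)) -
          (β (y C) u - β (y u) u + rho β y' ((x i)⁻¹ * ev x W) u) =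
          (β (y B) C + β (y B) C) + (rho β y' (x i) C + rho β y' (x i) C) := by abel
      rw [h9, e1, e2, add_zero]

private theorem two_list (M : Mdl G β y y') (l : List (G × G)) (u : V) :
    (l.map fun p => β (p.1 • u) (p.2 • u)).sum + (l.map fun p => β (p.1 • u) (p.2 • u)).sum =
      0 := by
  induction l with
  | nil =>
    rw [List.map_nil, List.sum_nil, add_zero]
  | cons p l ih =>
    rw [List.map_cons, List.sum_cons, add_add_add_comm, ih, M.b2, add_zero]

theorem tel_list (M : Mdl G β y y') (L : List (List (Fin k × Bool) × V))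
    (hL : ∀ z ∈ L, ∀ v : V, ev x z.1 • v = v)
    (hg : ∀ z ∈ L, ∀ W', W' <:+ z.1 → Gd y y' (ev x W' • z.2)) :
    ccl x β y y' (L.flatMap fun z => (lets x z.1).map fun p => (p.1, p.2 • z.2)) =
      (L.map fun z => ((negs x z.1).map fun p => β (p.1 • z.2) (p.2 • z.2)).sum).sum ∧
    AllGd x y y' (L.flatMap fun z => (lets x z.1).map fun p => (p.1, p.2 • z.2)) := by
  induction L with
  | nil =>
    refine ⟨?_, ?_⟩
    · rw [List.map_nil, List.sum_nil]
      rfl
    · intro p hp
      exact absurd hp (by simp)
  | cons z L ih =>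
    obtain ⟨h1, h2⟩ := ih (fun z' h => hL z' (List.mem_cons_of_mem _ h))
      (fun z' h => hg z' (List.mem_cons_of_mem _ h))
    have hz := hL z List.mem_cons_self
    have hgz := hg z List.mem_cons_self
    have hall := good_lets x z.1 z.2 hgz
    rw [List.flatMap_cons]
    refine ⟨?_, ?_⟩
    · rw [ccl_append, h1, dl_lets x M.two z.1 z.2, hz, sub_self, map_zero, map_zero,
        AddMonoidHom.zero_apply, add_zero, List.map_cons, List.sum_cons]
      congr 1
      have ht := tel x M z.1 z.2 hgz
      rw [hz, sub_self, map_zero, map_zero, AddMonoidHom.zero_apply, zero_add,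
        rho_triv M _ hz] at ht
      have h3 := two_list M (negs x z.1) z.2
      rw [← h3] at ht
      exact add_right_cancel ht
    · intro p hp
      rcases List.mem_append.1 hp with h | h
      · exact hall p h
      · exact h2 p h

end Pool.Agent.OW
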